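import Mathlib

/-!
# MP_305fdd_al, surface groups, block (III): minimal algebraic relations over the field with two elements
-/

set_option autoImplicit false

namespace Pool.Agent.SuIII

open MvPolynomial

section

variable {σ : Type}

/-- a polynomial without derivatives is a square -/
theorem exists_sq (P : MvPolynomial σ (ZMod 2)) (h : ∀ i, pderiv i P = 0) : ∃ Q, P = Q ^ 2 := by
  have : Fact (Nat.Prime 2) := ⟨Nat.prime_two⟩
  have hev : ∀ m ∈ P.support, 2 • (m.mapRange (fun n => n / 2) (Nat.zero_div 2)) = m := by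
    intro m hm
    ext i
    rw [Finsupp.smul_apply, Finsupp.mapRange_apply, smul_eq_mul]
    rcases Nat.even_or_odd (m i) with he | ho
    · exact Nat.mul_div_cancel' he.two_dvd
    · exfalso
      obtain ⟨c, hc⟩ := ho
      have h1 : m = (m - Finsupp.single i 1) + Finsupp.single i 1 := by
        rw [tsub_add_cancel_of_le]
        rw [Finsupp.single_le_iff]
        omega
      have h2 := coeff_pderiv (i := i) P (m - Finsupp.single i 1)
      rw [← h1, h i, coeff_zero, Finsupp.tsub_apply, Finsupp.single_eq_same, hc] at h2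
      have h3 : (((2 * c + 1 - 1 : ℕ) : ZMod 2) + 1) = 1 := by
        have h4 : 2 * c + 1 - 1 = 2 * c := by omega
        rw [h4]
        push_cast
        have h5 : (2 : ZMod 2) = 0 := rfl
        rw [h5, zero_mul, zero_add]
      rw [h3, mul_one] at h2
      exact (mem_support_iff.1 hm) h2.symm
  refine ⟨∑ m ∈ P.support, monomial (m.mapRange (fun n => n / 2) (Nat.zero_div 2)) (coeff m P),
    ?_⟩
  rw [← expand_zmod, map_sum]
  conv_lhs => rw [P.as_sum]
  refine Finset.sum_congr rfl fun m hm => ?_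
  rw [expand_monomial, hev m hm]

theorem totalDegree_pderiv_lt {P : MvPolynomial σ (ZMod 2)} {j : σ} (h : pderiv j P ≠ 0) :
    (pderiv j P).totalDegree < P.totalDegree := by
  have h1 : (pderiv j P).support.Nonempty := by
    rw [Finset.nonempty_iff_ne_empty, Ne, support_eq_empty]
    exact h
  obtain ⟨m, hm, he⟩ := Finset.exists_mem_eq_sup _ h1 (fun s : σ →₀ ℕ => s.sum fun _ e => e)
  have h2 : (pderiv j P).totalDegree = m.sum fun _ e => e := he
  rw [mem_support_iff, coeff_pderiv] at hm
  have h3 : m + Finsupp.single j 1 ∈ P.support := mem_support_iff.2 (left_ne_zero_of_mul hm)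
  have h4 := le_totalDegree h3
  rw [Finsupp.sum_add_index' (fun _ => rfl) (fun _ _ _ => rfl), Finsupp.sum_single_index rfl] at h4
  omega

/-- MINIMAL RELATIONS have a derivative which is not a relation -/
theorem exists_min_rel {A : Type} [CommRing A] [IsReduced A] [Nontrivial A] [Algebra (ZMod 2) A]
    (x : σ → A) (h : ¬ AlgebraicIndependent (ZMod 2) x) :
    ∃ P : MvPolynomial σ (ZMod 2), aeval x P = 0 ∧ ∃ j, aeval x (pderiv j P) ≠ 0 := by
  classical
  rw [algebraicIndependent_iff] at h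
  push Not at h
  obtain ⟨P₀, h0, hne⟩ := h
  have hex : ∃ n : ℕ, ∃ P : MvPolynomial σ (ZMod 2), P ≠ 0 ∧ aeval x P = 0 ∧ P.totalDegree = n :=
    ⟨_, P₀, hne, h0, rfl⟩
  obtain ⟨P, hP, hP0, hn⟩ := Nat.find_spec hex
  have hmin : ∀ Q : MvPolynomial σ (ZMod 2), Q ≠ 0 → aeval x Q = 0 →
      P.totalDegree ≤ Q.totalDegree := fun Q hQ hQ0 => by
    rw [hn]
    exact Nat.find_min' hex ⟨Q, hQ, hQ0, rfl⟩
  refine ⟨P, hP0, ?_⟩
  by_contra hcon
  push Not at hcon
  have h1 : ∀ j, pderiv j P = 0 := by
    intro j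
    by_contra hj
    exact absurd (hmin _ hj (hcon j)) (not_le.2 (totalDegree_pderiv_lt hj))
  obtain ⟨Q, hQ⟩ := exists_sq P h1
  have hQ0 : Q ≠ 0 := by
    rintro rfl
    apply hP
    rw [hQ, zero_pow two_ne_zero]
  have h2 : aeval x Q = 0 := by
    rw [hQ, map_pow] at hP0
    exact pow_eq_zero_iff (two_ne_zero) |>.1 hP0
  have h3 := hmin Q hQ0 h2
  rw [hQ, sq, totalDegree_mul_of_isDomain hQ0 hQ0] at h3
  have h4 : Q.totalDegree = 0 := by omega
  rw [totalDegree_eq_zero_iff_eq_C] at h4
  rw [h4, aeval_C] at h2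
  have h5 : coeff 0 Q = 0 := (algebraMap (ZMod 2) A).injective (by rw [h2, map_zero])
  apply hQ0
  rw [h4, h5, map_zero]

/-- a polynomial at a point with values in the dual numbers -/
theorem aeval_dual {κ : Type} [Field κ] [Algebra (ZMod 2) κ] (u : σ → DualNumber κ) (j : σ)
    (hu : ∀ i, i ≠ j → (u i).snd = 0) (P : MvPolynomial σ (ZMod 2)) :
    (aeval u P).fst = aeval (fun i => (u i).fst) P ∧
      (aeval u P).snd = (u j).snd * aeval (fun i => (u i).fst) (pderiv j P) := by
  classical
  induction P using MvPolynomial.induction_on with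
  | C a =>
    rw [aeval_C, aeval_C, pderiv_C, map_zero, mul_zero]
    exact ⟨rfl, rfl⟩
  | add p q hp hq =>
    rw [map_add, map_add, map_add, map_add, TrivSqZeroExt.fst_add, TrivSqZeroExt.snd_add, hp.1,
      hp.2, hq.1, hq.2, mul_add]
    exact ⟨rfl, rfl⟩
  | mul_X p i hp =>
    rw [map_mul, map_mul, aeval_X, aeval_X, TrivSqZeroExt.fst_mul, TrivSqZeroExt.snd_mul, hp.1,
      hp.2, pderiv_mul, map_add, map_mul, map_mul, aeval_X]
    refine ⟨rfl, ?_⟩
    rw [smul_eq_mul, MulOpposite.smul_eq_mul_unop, MulOpposite.unop_op]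
    by_cases hi : i = j
    · rw [hi, pderiv_X_self, map_one]
      ring
    · rw [hu i hi, pderiv_X_of_ne hi, map_zero]
      ring

end

end Pool.Agent.SuIII
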