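import Pool.Agent.Lib.MP_305fdd_al.Su.III.Dl
import Pool.Agent.Lib.MP_305fdd_al.Su.III.Min
import Pool.Agent.Lib.MP_305fdd_al.Su.AA.Pk

/-!
# MP_305fdd_al, surface groups, block (III): the traces of the edge groups are algebraically independent
-/

set_option autoImplicit false

namespace Pool.Agent.SuIII

open Matrix Pool.Agent.SuUp Pool.Agent.SuD Pool.Agent.Lib.MP_305fdd_al Pool.Agent.MP_305fdd_al
  Pool.Agent.SurfCnt Pool.Agent.SuSM Pool.Agent.SuAA Pool.Agent.FrN Pool.Agent.SuCO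

section pts

/-- closed points -/
theorem exists_fin_point {S : Type} [CommRing S] [IsDomain S] [Algebra (ZMod 2) S]
    [Algebra.FiniteType (ZMod 2) S] {x : S} (hx : x ≠ 0) :
    ∃ (κ : Type) (_ : Field κ) (_ : Algebra (ZMod 2) κ) (_ : Finite κ) (f : S →ₐ[ZMod 2] κ),
      f x ≠ 0 := by
  obtain ⟨m, hm, hxm, _⟩ := exists_point x (1 : S) fun n => by
    rw [mul_one]
    exact pow_ne_zero n hx
  let Fκ : Field (S ⧸ m) := Ideal.Quotient.field m
  have hft' : Algebra.FiniteType (ZMod 2) (S ⧸ m) := inferInstance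
  have hfin : Module.Finite (ZMod 2) (S ⧸ m) := finite_of_finite_type_of_isJacobsonRing (ZMod 2) _
  have hfin' : Finite (S ⧸ m) := Module.finite_of_finite (ZMod 2)
  refine ⟨S ⧸ m, Fκ, inferInstance, hfin', Ideal.Quotient.mkₐ (ZMod 2) m, fun h => hxm ?_⟩
  exact Ideal.Quotient.eq_zero_iff_mem.1 h

variable {Γ F : Type} [Group Γ] [Field F] [Algebra (ZMod 2) F]
  (ρ : Γ →* SpecialLinearGroup (Fin 2) F)

/-- the matrix over the ring of the entries -/
def mO (g : Γ) : Matrix (Fin 2) (Fin 2) (OO 2 ρ) :=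
  Matrix.of fun i j => ⟨(ρ g).1 i j, mem_OO ρ g i j⟩

theorem mO_val (g : Γ) (i j : Fin 2) : ((mO ρ g i j : OO 2 ρ) : F) = (ρ g).1 i j := rfl

/-- the representation over the ring of the entries -/
def rO : Γ →* SpecialLinearGroup (Fin 2) (OO 2 ρ) where
  toFun g := ⟨mO ρ g, by
    apply Subtype.ext
    rw [Matrix.det_fin_two]
    have h := (ρ g).2
    rw [Matrix.det_fin_two] at h
    exact h⟩
  map_one' := by
    apply Subtype.ext
    ext i j
    change (ρ 1).1 i j = (((1 : Matrix (Fin 2) (Fin 2) (OO 2 ρ)) i j : OO 2 ρ) : F)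
    rw [map_one]
    change (1 : Matrix (Fin 2) (Fin 2) F) i j = _
    rw [Matrix.one_apply, Matrix.one_apply]
    split_ifs <;> rfl
  map_mul' g h := by
    apply Subtype.ext
    ext i j
    change (ρ (g * h)).1 i j = (((mO ρ g * mO ρ h) i j : OO 2 ρ) : F)
    rw [map_mul]
    change ((ρ g).1 * (ρ h).1) i j = _
    rw [Matrix.mul_apply, Matrix.mul_apply, Fin.sum_univ_two, Fin.sum_univ_two]
    rfl

theorem rO_val (g : Γ) (i j : Fin 2) : (rO ρ g).1 i j = ⟨(ρ g).1 i j, mem_OO ρ g i j⟩ := rfl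

theorem rO_trace (g : Γ) : (((rO ρ g).1.trace : OO 2 ρ) : F) = (ρ g).1.trace := by
  rw [Matrix.trace_fin_two, Matrix.trace_fin_two]
  rfl

/-- the trace of an image -/
theorem map_trace {R S : Type} [CommRing R] [CommRing S] (f : R →+* S)
    (M : SpecialLinearGroup (Fin 2) R) : (SpecialLinearGroup.map f M).1.trace = f M.1.trace := by
  rw [Matrix.trace_fin_two, Matrix.trace_fin_two, map_add]
  rfl

end pts

section comm

/-- squares which commute, in characteristic two -/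
theorem comm_of_sq {F : Type} [Field F] (h2 : (2 : F) = 0) (A B : SpecialLinearGroup (Fin 2) F)
    (hA : A.1.trace ≠ 0) (hB : B.1.trace ≠ 0) (h : A ^ 2 * B ^ 2 = B ^ 2 * A ^ 2) :
    A * B = B * A := by
  have key : ∀ M : SpecialLinearGroup (Fin 2) F,
      (M ^ 2).1 = M.1.trace • M.1 + 1 := by
    intro M
    have hd := M.2
    rw [Matrix.det_fin_two] at hd
    rw [pow_two]
    change M.1 * M.1 = M.1.trace • M.1 + 1
    rw [Matrix.trace_fin_two]
    refine Matrix.ext (Fin.forall_fin_two.2 ⟨Fin.forall_fin_two.2 ⟨?_, ?_⟩,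
      Fin.forall_fin_two.2 ⟨?_, ?_⟩⟩)
    · rw [Matrix.mul_apply, Fin.sum_univ_two, Matrix.add_apply, Matrix.smul_apply,
        Matrix.one_apply_eq, smul_eq_mul]
      linear_combination -hd - h2
    · rw [Matrix.mul_apply, Fin.sum_univ_two, Matrix.add_apply, Matrix.smul_apply,
        Matrix.one_apply_ne (by decide), smul_eq_mul]
      ring
    · rw [Matrix.mul_apply, Fin.sum_univ_two, Matrix.add_apply, Matrix.smul_apply,
        Matrix.one_apply_ne (by decide), smul_eq_mul]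
      ring
    · rw [Matrix.mul_apply, Fin.sum_univ_two, Matrix.add_apply, Matrix.smul_apply,
        Matrix.one_apply_eq, smul_eq_mul]
      linear_combination -hd - h2
  have h1 : (A ^ 2).1 * (B ^ 2).1 = (B ^ 2).1 * (A ^ 2).1 := congrArg Subtype.val h
  rw [key, key] at h1
  have h3 : (A.1.trace * B.1.trace) • (A.1 * B.1) = (A.1.trace * B.1.trace) • (B.1 * A.1) := by
    have e1 : (A.1.trace • A.1 + 1) * (B.1.trace • B.1 + 1) =
        (A.1.trace * B.1.trace) • (A.1 * B.1) + A.1.trace • A.1 + B.1.trace • B.1 + 1 := by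
      rw [Matrix.add_mul, Matrix.mul_add, Matrix.one_mul, Matrix.mul_one, Matrix.smul_mul,
        Matrix.mul_smul, smul_smul]
      abel
    have e2 : (B.1.trace • B.1 + 1) * (A.1.trace • A.1 + 1) =
        (A.1.trace * B.1.trace) • (B.1 * A.1) + A.1.trace • A.1 + B.1.trace • B.1 + 1 := by
      rw [Matrix.add_mul, Matrix.mul_add, Matrix.one_mul, Matrix.mul_one, Matrix.smul_mul,
        Matrix.mul_smul, smul_smul, mul_comm B.1.trace]
      abel
    rw [e1, e2] at h1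
    exact add_right_cancel (add_right_cancel (add_right_cancel h1))
  apply Subtype.ext
  have h4 := mul_ne_zero hA hB
  exact smul_right_injective _ h4 h3

/-- good vertex groups -/
theorem exists_good {g : ℕ} {Λ Γ F : Type} [Group Λ] [Group Γ] [Field F] [Algebra (ZMod 2) F]
    {π : Λ →* Γ} {ρ : Γ →* SpecialLinearGroup (Fin 2) F} (h : Pk g π ρ)
    (hdiv : ∀ x : Γ, (ρ x).1.trace = 0 → x = 1) (H : Subgroup Γ)
    (hH : ∃ a ∈ H, ∃ b ∈ H, a * b ≠ b * a) :
    ∃ a b : H, (ρ (a ^ 2 * b ^ 2 * (a ^ 2)⁻¹ * (b ^ 2)⁻¹ : H)).1.trace ≠ 0 := by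
  obtain ⟨a, ha, b, hb, hab⟩ := hH
  have h2 : (2 : F) = 0 := by
    have h3 : (2 : ZMod 2) = 0 := rfl
    have h4 := congrArg (algebraMap (ZMod 2) F) h3
    rwa [map_ofNat, map_zero] at h4
  refine ⟨⟨a, ha⟩, ⟨b, hb⟩, fun h0 => hab ?_⟩
  have h3 := hdiv _ h0
  have h4 : a ^ 2 * b ^ 2 * (a ^ 2)⁻¹ * (b ^ 2)⁻¹ = 1 := h3
  have h5 : a ^ 2 * b ^ 2 = b ^ 2 * a ^ 2 := by
    rw [mul_inv_eq_one, mul_inv_eq_iff_eq_mul] at h4
    exact h4
  have ha1 : (ρ a).1.trace ≠ 0 := by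
    intro h6
    apply hab
    rw [hdiv a h6, one_mul, mul_one]
  have hb1 : (ρ b).1.trace ≠ 0 := by
    intro h6
    apply hab
    rw [hdiv b h6, one_mul, mul_one]
  apply h.inj
  rw [map_mul, map_mul]
  refine comm_of_sq h2 _ _ ha1 hb1 ?_
  rw [← map_pow, ← map_pow, ← map_mul, ← map_mul, h5]

end comm

section main

variable {g : ℕ} {Λ Γ F : Type} [Group Λ] [Group Γ] [Field F] [Algebra (ZMod 2) F] {π : Λ →* Γ}
  {ρ : Γ →* SpecialLinearGroup (Fin 2) F}

/-- finite families -/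
theorem indep_fin (h : Pk g π ρ) (hdiv : ∀ x : Γ, (ρ x).1.trace = 0 → x = 1) {V : Type}
    [MulAction Γ V] {X : SimpleGraph V} (hT : TA Γ X) {ι : Type} [Finite ι] (x y : ι → V)
    (hadj : ∀ i, X.Adj (x i) (y i)) (hne : ∀ i j, i ≠ j → ¬ Tl Γ (x i) (y i) (x j) (y j))
    (z : ι → Γ) (hz : ∀ i, ES Γ (x i) (y i) = Subgroup.zpowers (z i)) (hz1 : ∀ i, z i ≠ 1)
    (hx : ∀ i, ∃ a ∈ MulAction.stabilizer Γ (x i), ∃ b ∈ MulAction.stabilizer Γ (x i),
      a * b ≠ b * a)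
    (hy : ∀ i, ∃ a ∈ MulAction.stabilizer Γ (y i), ∃ b ∈ MulAction.stabilizer Γ (y i),
      a * b ≠ b * a) :
    AlgebraicIndependent (ZMod 2) fun i => (ρ (z i)).1.trace := by
  classical
  have := Fintype.ofFinite ι
  by_contra hcon
  obtain ⟨P, hP0, j, hj⟩ := exists_min_rel _ hcon
  have hne' : Nonempty ι := ⟨j⟩
  have := h.fg
  have hfgL := h.fgL
  obtain ⟨Φ⟩ := h.nbG
  have hft : Algebra.FiniteType (ZMod 2) (OO 2 ρ) := fg_OO ρ
  -- the elements which have to be different from zero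
  choose ax bx hax using fun i => exists_good h hdiv _ (hx i)
  choose ay bay hay using fun i => exists_good h hdiv _ (hy i)
  obtain ⟨aL, haL, bL, hbL, hL⟩ := h.gn.good
  let τ : ι → OO 2 ρ := fun i => (rO ρ (z i)).1.trace
  have hτ : ∀ Q : MvPolynomial ι (ZMod 2), ((MvPolynomial.aeval τ Q : OO 2 ρ) : F) =
      MvPolynomial.aeval (fun i => (ρ (z i)).1.trace) Q := by
    intro Q
    exact MvPolynomial.comp_aeval_apply τ (OO 2 ρ).val Q
  let Δ : OO 2 ρ := MvPolynomial.aeval τ (MvPolynomial.pderiv j P) * (∏ i, τ i) *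
    (∏ i, (rO ρ ((ax i) ^ 2 * (bx i) ^ 2 * ((ax i) ^ 2)⁻¹ * ((bx i) ^ 2)⁻¹ :
      MulAction.stabilizer Γ (x i))).1.trace) *
    (∏ i, (rO ρ ((ay i) ^ 2 * (bay i) ^ 2 * ((ay i) ^ 2)⁻¹ * ((bay i) ^ 2)⁻¹ :
      MulAction.stabilizer Γ (y i))).1.trace) *
    (rO ρ (π (aL * bL * aL⁻¹ * bL⁻¹))).1.trace
  have htne : ∀ γ : Γ, (ρ γ).1.trace ≠ 0 → (rO ρ γ).1.trace ≠ 0 := by
    intro γ hγ h0
    apply hγ
    rw [← rO_trace, h0]
    rfl
  have hΔ : Δ ≠ 0 := by
    refine mul_ne_zero (mul_ne_zero (mul_ne_zero (mul_ne_zero ?_ ?_) ?_) ?_) ?_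
    · intro h0
      apply hj
      rw [← hτ, h0]
      rfl
    · rw [Finset.prod_ne_zero_iff]
      exact fun i _ => htne _ fun h0 => hz1 i (hdiv _ h0)
    · rw [Finset.prod_ne_zero_iff]
      exact fun i _ => htne _ (hax i)
    · rw [Finset.prod_ne_zero_iff]
      exact fun i _ => htne _ (hay i)
    · exact htne _ hL
  obtain ⟨κ, _, _, _, f, hf⟩ := exists_fin_point hΔ
  have h2 : (2 : κ) = 0 := by
    have h3 : (2 : ZMod 2) = 0 := rfl
    have h4 := congrArg (algebraMap (ZMod 2) κ) h3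
    rwa [map_ofNat, map_zero] at h4
  rw [map_mul, map_mul, map_mul, map_mul, map_prod, map_prod, map_prod] at hf
  have hf5 := right_ne_zero_of_mul hf
  have hf4 := right_ne_zero_of_mul (left_ne_zero_of_mul hf)
  have hf3 := right_ne_zero_of_mul (left_ne_zero_of_mul (left_ne_zero_of_mul hf))
  have hf2 := right_ne_zero_of_mul (left_ne_zero_of_mul (left_ne_zero_of_mul
    (left_ne_zero_of_mul hf)))
  have hf1 := left_ne_zero_of_mul (left_ne_zero_of_mul (left_ne_zero_of_mul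
    (left_ne_zero_of_mul hf)))
  rw [Finset.prod_ne_zero_iff] at hf2 hf3 hf4
  -- the representation over the finite field
  let r : Γ →* SpecialLinearGroup (Fin 2) κ :=
    (SpecialLinearGroup.map (f : OO 2 ρ →+* κ)).comp (rO ρ)
  have hrt : ∀ γ, (r γ).1.trace = f (rO ρ γ).1.trace := fun γ => map_trace _ _
  have hgd : ∀ (H : Subgroup Γ) (a b : H),
      f (rO ρ (a ^ 2 * b ^ 2 * (a ^ 2)⁻¹ * (b ^ 2)⁻¹ : H)).1.trace ≠ 0 →
      ∀ φ : s2 κ →ₗ[κ] κ, (∀ s ∈ H, ∀ p, φ (ad r s p) = φ p) → φ = 0 := by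
    intro H a b hab φ hφ
    refine inv_zero r H ?_ φ hφ
    refine Gd_of_trace h2 (r.comp H.subtype) (x := a ^ 2) (y := b ^ 2)
      (Subgroup.subset_closure ⟨a, rfl⟩) (Subgroup.subset_closure ⟨b, rfl⟩) ?_
    rw [MonoidHom.comp_apply]
    exact fun h0 => hab ((hrt _).symm.trans h0)
  choose w hw using fun i => h.surj (z i)
  have hadc : (ad r).comp π = ad (r.comp π) := by
    refine MonoidHom.ext fun l => LinearMap.ext fun X => Subtype.ext ?_
    change (r (π l)).1 * X.1 * (r (π l)⁻¹).1 = (r (π l)).1 * X.1 * (r (π l⁻¹)).1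
    rw [map_inv π]
  -- dual lifts are specialisations
  have hsp : ∀ (ξ : Λ → s2 κ) (hξ : ξ ∈ Z1 (ad (r.comp π))),
      Sp 2 (ρ.comp π) (dl (r.comp π) ξ hξ) := by
    intro ξ hξ
    refine h.gn.ug _ fun x hx => ?_
    have h3 := hx aL haL bL hbL
    have h4 : IsUnit (dl (r.comp π) ξ hξ (aL * bL * aL⁻¹ * bL⁻¹)).1.trace := by
      rw [TrivSqZeroExt.isUnit_iff_isUnit_fst, (dl_trace _ _ _ _).1, isUnit_iff_ne_zero,
        MonoidHom.comp_apply, hrt]
      exact hf5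
    exact h4.mul_left_eq_zero.1 h3
  obtain ⟨ξ, hξ, hv⟩ := surj_tree Φ h2 hT π h.surj (ad r) (by
    intro ξ hξ l hl
    rw [hadc] at hξ
    obtain ⟨φ, hφ⟩ := hsp ξ hξ
    refine dl_one (r.comp π) ξ hξ (by rw [MonoidHom.comp_apply, hl, map_one]) ?_
    refine Subtype.ext (Matrix.ext fun i j => ?_)
    rw [← hφ]
    have h3 : (⟨((ρ.comp π) l).1 i j, mem_OO (ρ.comp π) l i j⟩ : OO 2 (ρ.comp π)) =
        (1 : Matrix (Fin 2) (Fin 2) (OO 2 (ρ.comp π))) i j := by
      apply Subtype.ext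
      change (ρ (π l)).1 i j = _
      rw [hl, map_one]
      change (1 : Matrix (Fin 2) (Fin 2) F) i j = _
      rw [Matrix.one_apply, Matrix.one_apply]
      split_ifs <;> rfl
    rw [h3]
    change _ = (1 : Matrix (Fin 2) (Fin 2) (DualNumber κ)) i j
    rw [Matrix.one_apply, Matrix.one_apply]
    split_ifs
    · exact map_one φ
    · exact map_zero φ) x y hadj hne
    (fun i => hgd _ (ax i) (bx i) (hf3 i (Finset.mem_univ i)))
    (fun i => hgd _ (ay i) (bay i) (hf4 i (Finset.mem_univ i)))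
    (fun i => zt (r (z i)).1)
    (fun i => zt_ne h2 (by rw [hrt]; exact hf2 i (Finset.mem_univ i))) z hz
    (fun i p => zt_inv r (z i) p)
    (fun i p hp => zt_ker h2 r (z i) (by rw [hrt]; exact hf2 i (Finset.mem_univ i)) p hp)
    w hw (Pi.single j 1)
  rw [hadc] at hξ
  obtain ⟨φ, hφ⟩ := hsp ξ hξ
  -- the relation at the dual lift
  let τ' : ι → OO 2 (ρ.comp π) := fun i => ⟨((ρ.comp π) (w i)).1 0 0, mem_OO _ _ _ _⟩ +
    ⟨((ρ.comp π) (w i)).1 1 1, mem_OO _ _ _ _⟩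
  have h3 : MvPolynomial.aeval τ' P = 0 := by
    apply Subtype.ext
    have h4 := MvPolynomial.comp_aeval_apply τ' (OO 2 (ρ.comp π)).val P
    refine h4.trans ?_
    refine Eq.trans ?_ hP0
    congr 2
    funext i
    rw [← hw i, Matrix.trace_fin_two]
    rfl
  have h4 : MvPolynomial.aeval (fun i => (dl (r.comp π) ξ hξ (w i)).1.trace) P = 0 := by
    have h5 := MvPolynomial.comp_aeval_apply τ' φ P
    rw [h3, map_zero] at h5
    refine Eq.trans ?_ h5.symm
    congr 2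
    funext i
    rw [Matrix.trace_fin_two, map_add, hφ, hφ]
  obtain ⟨-, h5⟩ := aeval_dual (fun i => (dl (r.comp π) ξ hξ (w i)).1.trace) j (by
    intro i hi
    rw [(dl_trace _ _ _ _).2, MonoidHom.comp_apply, hw, hv, Pi.single_eq_of_ne hi]) P
  rw [h4, (dl_trace _ _ _ _).2, MonoidHom.comp_apply, hw, hv, Pi.single_eq_same, one_mul,
    TrivSqZeroExt.snd_zero] at h5
  apply hf1
  rw [MvPolynomial.comp_aeval_apply τ f, h5]
  congr 2
  funext i
  rw [(dl_trace _ _ _ _).1, MonoidHom.comp_apply, hw, hrt]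

/-- THEOREM (III): the traces of the edge groups are algebraically independent -/
theorem indep (h : Pk g π ρ) (hdiv : ∀ x : Γ, (ρ x).1.trace = 0 → x = 1) {V : Type}
    [MulAction Γ V] {X : SimpleGraph V} (hT : TA Γ X) {ι : Type} (x y : ι → V)
    (hadj : ∀ i, X.Adj (x i) (y i)) (hne : ∀ i j, i ≠ j → ¬ Tl Γ (x i) (y i) (x j) (y j))
    (z : ι → Γ) (hz : ∀ i, ES Γ (x i) (y i) = Subgroup.zpowers (z i)) (hz1 : ∀ i, z i ≠ 1)
    (hx : ∀ i, ∃ a ∈ MulAction.stabilizer Γ (x i), ∃ b ∈ MulAction.stabilizer Γ (x i),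
      a * b ≠ b * a)
    (hy : ∀ i, ∃ a ∈ MulAction.stabilizer Γ (y i), ∃ b ∈ MulAction.stabilizer Γ (y i),
      a * b ≠ b * a) :
    AlgebraicIndependent (ZMod 2) fun i => (ρ (z i)).1.trace := by
  refine algebraicIndependent_of_finite_type fun t ht => ?_
  have : Finite t := ht
  exact indep_fin h hdiv hT (fun i : t => x i) (fun i => y i) (fun i => hadj i)
    (fun i j hij => hne i j fun h => hij (Subtype.ext h)) (fun i => z i) (fun i => hz i)
    (fun i => hz1 i) (fun i => hx i) (fun i => hy i)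

end main

end Pool.Agent.SuIII
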