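import Mathlib

/-!
# MP_305fdd_al, closed surface groups, (III): moving a transcendental element

`exists_move`: for `t` transcendental over `F₀` there are a local domain `R` of characteristic two,
closed under square roots, and two homomorphisms `F → R` which agree on `F₀` and modulo the maximal
ideal, but not at `t`.
-/

set_option autoImplicit false

namespace Pool.Agent.SuIII

open scoped TensorProduct

section reg

variable {k F : Type} [Field k] [Field F] [Algebra k F]

/-- contraction of the left factor -/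
noncomputable def ctr (φ : F →ₗ[k] k) : F ⊗[k] F →ₗ[k] F :=
  (TensorProduct.lid k F).toLinearMap.comp (φ.rTensor F)

theorem ctr_tmul (φ : F →ₗ[k] k) (x y : F) : ctr φ (x ⊗ₜ[k] y) = φ x • y := by
  simp [ctr]

theorem ctr_right (φ : F →ₗ[k] k) (t : F) (z : F ⊗[k] F) :
    ctr φ ((1 ⊗ₜ[k] t) * z) = t * ctr φ z := by
  induction z with
  | zero => simp
  | tmul x y =>
    rw [Algebra.TensorProduct.tmul_mul_tmul, one_mul, ctr_tmul, ctr_tmul, mul_smul_comm]
  | add x y hx hy => rw [mul_add, map_add, map_add, hx, hy, mul_add]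

theorem ctr_left (φ : F →ₗ[k] k) (t : F) (z : F ⊗[k] F) :
    ctr φ ((t ⊗ₜ[k] 1) * z) = ctr (φ.comp (LinearMap.mulLeft k t)) z := by
  induction z with
  | zero => simp
  | tmul x y =>
    rw [Algebra.TensorProduct.tmul_mul_tmul, one_mul, ctr_tmul, ctr_tmul]
    rfl
  | add x y hx hy => rw [mul_add, map_add, map_add, hx, hy]

theorem ctr_zero {z : F ⊗[k] F} (h : ∀ φ : F →ₗ[k] k, ctr φ z = 0) : z = 0 := by
  classical
  let b := Module.Basis.ofVectorSpace k F
  apply (TensorProduct.equivFinsuppOfBasisLeft (N := F) b).injective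
  rw [map_zero]
  ext i
  rw [TensorProduct.equivFinsuppOfBasisLeft_apply]
  exact h (b.coord i)

/-- the space of all contractions of `z` -/
noncomputable def Wz (z : F ⊗[k] F) : Submodule k F where
  carrier := {w | ∃ φ : F →ₗ[k] k, ctr φ z = w}
  zero_mem' := ⟨0, by simp [ctr]⟩
  add_mem' := by
    rintro _ _ ⟨φ, rfl⟩ ⟨ψ, rfl⟩
    exact ⟨φ + ψ, by simp [ctr, LinearMap.rTensor_add]⟩
  smul_mem' := by
    rintro c _ ⟨φ, rfl⟩
    exact ⟨c • φ, by simp [ctr, LinearMap.rTensor_smul]⟩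

theorem exists_fin (z : F ⊗[k] F) : ∃ U : Submodule k F, U.FG ∧ ∀ φ : F →ₗ[k] k, ctr φ z ∈ U := by
  induction z with
  | zero => exact ⟨⊥, Submodule.fg_bot, fun φ => by simp⟩
  | tmul x y =>
    refine ⟨k ∙ y, Submodule.fg_span_singleton y, fun φ => ?_⟩
    rw [ctr_tmul]
    exact Submodule.smul_mem _ _ (Submodule.mem_span_singleton_self y)
  | add x y hx hy =>
    obtain ⟨U, hU, h1⟩ := hx
    obtain ⟨U', hU', h2⟩ := hy
    refine ⟨U ⊔ U', hU.sup hU', fun φ => ?_⟩
    rw [map_add]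
    exact add_mem (Submodule.mem_sup_left (h1 φ)) (Submodule.mem_sup_right (h2 φ))

theorem Wz_fg (z : F ⊗[k] F) : (Wz z).FG := by
  obtain ⟨U, hU, h⟩ := exists_fin z
  have h1 : Wz z ≤ U := by
    rintro _ ⟨φ, rfl⟩
    exact h φ
  have h2 : FiniteDimensional k U := Module.Finite.iff_fg.2 hU
  have h3 : FiniteDimensional k (Wz z) := Submodule.finiteDimensional_of_le h1
  exact Module.Finite.iff_fg.1 h3

/-- `t ⊗ 1 - 1 ⊗ t` is a nonzerodivisor if `t` is transcendental -/
theorem reg {t : F} (ht : Transcendental k t) {z : F ⊗[k] F}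
    (hz : (t ⊗ₜ[k] 1 - 1 ⊗ₜ[k] t) * z = 0) : z = 0 := by
  have h1 : (t ⊗ₜ[k] (1 : F)) * z = (1 ⊗ₜ[k] t) * z := by
    rw [← sub_eq_zero, ← sub_mul]
    exact hz
  by_contra hne
  apply ht
  have hW : Wz z ≠ ⊥ := by
    intro h0
    apply hne
    apply ctr_zero
    intro φ
    have h2 : ctr φ z ∈ Wz z := ⟨φ, rfl⟩
    rw [h0] at h2
    exact h2
  have h3 : IsIntegral k t := by
    refine isIntegral_of_smul_mem_submodule (M := F) (Wz z) hW (Wz_fg z) t ?_
    rintro _ ⟨φ, rfl⟩
    refine ⟨φ.comp (LinearMap.mulLeft k t), ?_⟩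
    rw [← ctr_left, h1, ctr_right, smul_eq_mul]
  exact h3.isAlgebraic

end reg

/-- an algebraically closed field for a prime ideal -/
theorem exists_big (S : Type) [CommRing S] (q : Ideal S) [hq : q.IsPrime] :
    ∃ (Ω : Type) (_ : Field Ω) (_ : IsAlgClosed Ω) (f : S →+* Ω), ∀ x, f x = 0 ↔ x ∈ q := by
  refine ⟨AlgebraicClosure (FractionRing (S ⧸ q)), inferInstance, inferInstance,
    ((algebraMap (FractionRing (S ⧸ q)) (AlgebraicClosure (FractionRing (S ⧸ q)))).comp
      (algebraMap (S ⧸ q) (FractionRing (S ⧸ q)))).comp (Ideal.Quotient.mk q), ?_⟩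
  intro x
  rw [← Ideal.Quotient.eq_zero_iff_mem, RingHom.comp_apply, RingHom.comp_apply, map_eq_zero]
  exact IsFractionRing.to_map_eq_zero_iff

/-- MOVE -/
theorem exists_move {F : Type} [Field F] [Algebra (ZMod 2) F]
    (F0 : IntermediateField (ZMod 2) F) (t : F) (ht : Transcendental F0 t) :
    ∃ (R F' : Type) (_ : CommRing R) (_ : IsDomain R) (_ : Field F') (_ : Algebra (ZMod 2) R)
      (i : F →+* F') (s : R →+* F') (i0 i1 : F →+* R),
      (∀ a, s (i0 a) = i a) ∧ (∀ a, s (i1 a) = i a) ∧ (∀ a ∈ F0, i0 a = i1 a) ∧ i0 t ≠ i1 t ∧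
      (∀ r : R, ∃ r', r' ^ 2 = r) ∧ ∀ r, s r ≠ 0 → IsUnit r := by
  classical
  let S : Type := F ⊗[F0] F
  let μ : S →+* F := (Algebra.TensorProduct.lmul' F0 : F ⊗[F0] F →ₐ[F0] F).toRingHom
  let j0 : F →+* S := (Algebra.TensorProduct.includeLeft : F →ₐ[F0] F ⊗[F0] F).toRingHom
  let j1 : F →+* S := (Algebra.TensorProduct.includeRight : F →ₐ[F0] F ⊗[F0] F).toRingHom
  have hμ0 : ∀ a, μ (j0 a) = a := fun a => by
    change Algebra.TensorProduct.lmul' F0 (a ⊗ₜ[F0] (1 : F)) = a
    simp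
  have hμ1 : ∀ a, μ (j1 a) = a := fun a => by
    change Algebra.TensorProduct.lmul' F0 ((1 : F) ⊗ₜ[F0] a) = a
    simp
  have hj : ∀ a ∈ F0, j0 a = j1 a := fun a ha => by
    have h1 := (Algebra.TensorProduct.includeLeft : F →ₐ[F0] F ⊗[F0] F).commutes ⟨a, ha⟩
    have h2 := (Algebra.TensorProduct.includeRight : F →ₐ[F0] F ⊗[F0] F).commutes ⟨a, ha⟩
    exact h1.trans h2.symm
  let de : S := j0 t - j1 t
  have hde : ∀ z : S, de * z = 0 → z = 0 := fun z hz => reg ht hz
  -- the prime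
  let P : Ideal S := RingHom.ker μ
  have hP : P.IsPrime := RingHom.ker_isPrime μ
  let M : Submonoid S :=
    { carrier := {x | ∃ (s : S) (n : ℕ), s ∉ P ∧ x = s * de ^ n}
      one_mem' := ⟨1, 0, fun h => hP.ne_top ((Ideal.eq_top_iff_one _).2 h), by simp⟩
      mul_mem' := by
        rintro _ _ ⟨s, n, hs, rfl⟩ ⟨s', n', hs', rfl⟩
        exact ⟨s * s', n + n', fun h => (hP.mem_or_mem h).elim hs hs', by ring⟩ }
  have hM : Disjoint ((⊥ : Ideal S) : Set S) (M : Set S) := by
    rw [Set.disjoint_left]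
    rintro x hx ⟨s, n, hs, rfl⟩
    have h0 : s * de ^ n = 0 := hx
    have h1 : ∀ n : ℕ, s * de ^ n = 0 → s = 0 := by
      intro n
      induction n with
      | zero => intro h; rwa [pow_zero, mul_one] at h
      | succ n ih =>
        intro h
        apply ih
        apply hde
        rw [← h]
        ring
    apply hs
    rw [h1 n h0]
    exact P.zero_mem
  obtain ⟨q, hq, -, hqM⟩ := Ideal.exists_le_prime_disjoint (⊥ : Ideal S) M hM
  have hqP : q ≤ P := by
    intro x hx
    by_contra hxP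
    exact Set.disjoint_left.1 hqM hx ⟨x, 0, hxP, by simp⟩
  have hdeq : de ∉ q := fun h => Set.disjoint_left.1 hqM h
    ⟨1, 1, fun h => hP.ne_top ((Ideal.eq_top_iff_one _).2 h), by simp⟩
  -- the big field
  obtain ⟨Ω, _, _, f, hf⟩ := exists_big S q
  -- the valuation ring
  let A : Subring Ω := f.range
  let I : Ideal A := P.map f.rangeRestrict
  have hI : I ≠ ⊤ := by
    intro h
    have h1 : (1 : A) ∈ P.map f.rangeRestrict := by
      change (1 : A) ∈ I
      rw [h]
      exact Submodule.mem_top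
    rw [Ideal.mem_map_iff_of_surjective _ f.rangeRestrict_surjective] at h1
    obtain ⟨x, hx, hx1⟩ := h1
    have h2 : f x = 1 := congrArg Subtype.val hx1
    have h3 : x - 1 ∈ q := by
      rw [← hf, map_sub, map_one, h2, sub_self]
    have h4 : (1 : S) ∈ P := by
      have h5 := P.sub_mem hx (hqP h3)
      rwa [sub_sub_cancel] at h5
    exact hP.ne_top ((Ideal.eq_top_iff_one _).2 h4)
  obtain ⟨B, hAB, hIB⟩ := Ideal.image_subset_nonunits_valuationSubring I hI
  have hfB : ∀ x, f x ∈ B := fun x => hAB ⟨x, rfl⟩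
  let g : S →+* B := f.codRestrict B.toSubring hfB
  have hg : ∀ x, ((g x : B) : Ω) = f x := fun x => rfl
  let F' : Type := IsLocalRing.ResidueField B
  let s : B →+* F' := IsLocalRing.residue B
  have hsg : ∀ x ∈ P, s (g x) = 0 := by
    intro x hx
    have h1 : f x ∈ B.nonunits := hIB ⟨f.rangeRestrict x, Ideal.mem_map_of_mem _ hx, rfl⟩
    rw [ValuationSubring.mem_nonunits_iff_exists_mem_maximalIdeal] at h1
    obtain ⟨h2, h3⟩ := h1
    have h4 : g x = ⟨f x, h2⟩ := rfl
    rw [h4]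
    exact (IsLocalRing.residue_eq_zero_iff _).2 h3
  let i0 : F →+* B := g.comp j0
  let i1 : F →+* B := g.comp j1
  let i : F →+* F' := s.comp i0
  let algB : Algebra (ZMod 2) B := (i0.comp (algebraMap (ZMod 2) F)).toAlgebra
  refine ⟨B, F', inferInstance, inferInstance, inferInstance, algB, i, s, i0, i1, ?_, ?_, ?_, ?_,
    ?_, ?_⟩
  · intro a
    rfl
  · intro a
    have h1 : j1 a - j0 a ∈ P := by
      rw [RingHom.mem_ker, map_sub, hμ0, hμ1, sub_self]
    have h2 := hsg _ h1
    rw [map_sub, map_sub, sub_eq_zero] at h2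
    exact h2
  · intro a ha
    change g (j0 a) = g (j1 a)
    rw [hj a ha]
  · intro h
    apply hdeq
    rw [← hf]
    have h1 : g de = 0 := by
      change g (j0 t - j1 t) = 0
      rw [map_sub, sub_eq_zero]
      exact h
    rw [← hg, h1]
    rfl
  · intro r
    obtain ⟨w, hw⟩ := IsAlgClosed.exists_pow_nat_eq (r : Ω) (n := 2) (by norm_num)
    have hwB : w ∈ B := by
      rcases B.mem_or_inv_mem w with h | h
      · exact h
      · by_cases hw0 : w = 0
        · rw [hw0]; exact B.zero_mem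
        · have h1 : w = (r : Ω) * w⁻¹ := by
            rw [← hw, pow_two, mul_assoc, mul_inv_cancel₀ hw0, mul_one]
          rw [h1]
          exact B.mul_mem _ _ r.2 h
    exact ⟨⟨w, hwB⟩, Subtype.ext hw⟩
  · intro r hr
    by_contra hu
    apply hr
    rw [IsLocalRing.residue_eq_zero_iff]
    exact (IsLocalRing.mem_maximalIdeal r).2 hu

end Pool.Agent.SuIII
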