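import Pool.Agent.Lib.MP_305fdd_al.Su.III.Non
import Pool.Agent.Lib.MP_305fdd_al.Su.III.Ind
import Pool.Agent.Lib.MP_305fdd_al.Su.III.Mov

/-!
# MP_305fdd_al, surface groups, block (III): final form (T3)
-/

set_option autoImplicit false

namespace Pool.Agent.SuIII

open Matrix Pool.Agent.SuUp Pool.Agent.FrT Pool.Agent.SuT Pool.Agent.SuAA

theorem p_MOVE : S_MOVE := fun _ _ _ F0 t ht => exists_move F0 t ht

theorem ind2 {g : ℕ} {Λ Γ F : Type} [Group Λ] [Group Γ] [Field F] [Algebra (ZMod 2) F]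
    {π : Λ →* Γ} {ρ : Γ →* SpecialLinearGroup (Fin 2) F} (h : Pk g π ρ)
    (hdiv : ∀ x : Γ, (ρ x).1.trace = 0 → x = 1) {V : Type} [MulAction Γ V] {X : SimpleGraph V}
    (hX : Spl Γ X) : Ind2 ρ X := by
  intro ι _ x y z hadj hne hz
  refine indep h hdiv hX.toTA x y hadj ?_ z hz ?_ (fun i => hX.na _) (fun i => hX.na _)
  · rintro i j hij ⟨g, ⟨e1, e2⟩ | ⟨e1, e2⟩⟩
    · exact hne j i hij.symm ⟨g, by rw [e1, e2]⟩
    · exact hne j i hij.symm ⟨g, by rw [e1, e2]; exact Sym2.eq_swap⟩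
  · intro i hi
    obtain ⟨⟨z', hz', hzz⟩, _⟩ := hX.mc _ _ (hadj i)
    rw [hz i, hi, Subgroup.zpowers_one_eq_bot] at hzz
    have h1 : z' ∈ (⊥ : Subgroup Γ) := by
      rw [hzz]
      exact Subgroup.mem_zpowers z'
    rw [Subgroup.mem_bot] at h1
    exact hz' 1 one_pos (by rw [h1, one_pow])

/-- (T3): a splitting with at least two orbits of vertices has a one-edge collapse which is an amalgam
or a nondefect HNN extension. -/
theorem t3 {g : ℕ} {Λ Γ F : Type} [Group Λ] [Group Γ] [Field F] [Algebra (ZMod 2) F]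
    {π : Λ →* Γ} {ρ : Γ →* SpecialLinearGroup (Fin 2) F} (h : Pk g π ρ)
    (hdiv : ∀ x : Γ, (ρ x).1.trace = 0 → x = 1) {V : Type} [MulAction Γ V] {X : SimpleGraph V}
    (hX : Spl Γ X) {x₁ x₂ : V} (hx : ∀ g : Γ, g • x₁ ≠ x₂) :
    ∃ (W : Type) (_ : MulAction Γ W) (Y : SimpleGraph W) (p q : W), Spl Γ Y ∧ Y.Adj p q ∧
      OE Γ Y p q ∧ ((∀ g : Γ, g • p ≠ q) ∨
        ∃ t z : Γ, t • p = q ∧ HT Γ Y p t ∧ ES Γ p (t • p) = Subgroup.zpowers z ∧
          NDf ρ (MulAction.stabilizer Γ p) z (t⁻¹ * z * t)) :=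
  amalgam_or_nondefect p_MOVE ρ h.fg hX (ind2 h hdiv hX) hx

end Pool.Agent.SuIII
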