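import Pool.Agent.Lib.MP_305fdd_al.Su.Dual.ZC

/-!
# MP_305fdd_al, surface groups, block (III): the duality count

`L` has the same finite quotients as a closed surface group, `P` is a finite `k`-linear
representation, `E = k^ι × P` an extension of `P` by `k^ι` without invariant functionals.  The
crossed homomorphisms `L → P` which lift to `E` have index `|k^ι|`.  (`surj_of_ker`: a linear map to
`k^ι` whose kernel lifts is surjective.)
-/

set_option autoImplicit false

namespace Pool.Agent.SuIII

open Pool.Agent.SuD Pool.Agent.Lib.MP_305fdd_al Pool.Agent.MP_305fdd_al Pool.Agent.SurfCnt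

section

variable {k : Type} [Field k] {L : Type} [Group L] {P : Type} [AddCommGroup P] [Module k P]

/-- the crossed homomorphisms of a linear representation -/
def Z1 (θ : L →* Module.End k P) : Submodule k (L → P) where
  carrier := {c | ∀ g h, c (g * h) = c g + θ g (c h)}
  zero_mem' g h := by simp
  add_mem' {c d} hc hd g h := by
    rw [Pi.add_apply, Pi.add_apply, Pi.add_apply, hc g h, hd g h, map_add]
    abel
  smul_mem' a c hc g h := by
    rw [Pi.smul_apply, Pi.smul_apply, Pi.smul_apply, hc g h, smul_add, map_smul]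

theorem mem_Z1 {θ : L →* Module.End k P} {c : L → P} :
    c ∈ Z1 θ ↔ ∀ g h, c (g * h) = c g + θ g (c h) := Iff.rfl

theorem Z1_one {θ : L →* Module.End k P} {c : L → P} (hc : c ∈ Z1 θ) : c 1 = 0 := by
  have h := hc 1 1
  rw [one_mul, map_one, Module.End.one_apply] at h
  exact left_eq_add.1 h

theorem finite_end [Finite P] : Finite (Module.End k P) :=
  Finite.of_injective (fun f : Module.End k P => (f : P → P)) DFunLike.coe_injective

theorem card_Z1_aux [Finite P] {g : ℕ} (Φ : NatBij L (SurfG g)) (θ : L →* Module.End k P) :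
    Nat.card (Z1 θ) * Nat.card (IP P θ.toHomUnits.range) = Nat.card P ^ (2 * g) := by
  have := finite_end (k := k) (P := P)
  exact card_Crs Φ θ.toHomUnits P

theorem card_Z1 [Finite P] {g : ℕ} (Φ : NatBij L (SurfG g)) (θ : L →* Module.End k P)
    (h : ∀ f : P →ₗ[k] k, (∀ x p, f (θ x p) = f p) → f = 0) :
    Nat.card (Z1 θ) * Nat.card P = Nat.card P ^ (2 * g) := by
  have h1 := card_Z1_aux Φ θ
  have hsm : ∀ (a : k), ∀ x ∈ IP P θ.toHomUnits.range, a • x ∈ IP P θ.toHomUnits.range := by
    intro a x hx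
    unfold IP at hx
    induction hx using AddSubgroup.closure_induction with
    | mem x hx =>
      obtain ⟨q, ⟨l, rfl⟩, p, rfl⟩ := hx
      have e : a • (p - θ.toHomUnits l • p) = a • p - θ.toHomUnits l • (a • p) := by
        change a • (p - θ l p) = a • p - θ l (a • p)
        rw [smul_sub, map_smul]
      rw [e]
      exact sub_mem_IP (MonoidHom.mem_range.2 ⟨l, rfl⟩) _
    | zero =>
      rw [smul_zero]
      exact AddSubgroup.zero_mem _
    | add x y _ _ hx hy =>
      rw [smul_add]
      exact AddSubgroup.add_mem _ hx hy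
    | neg x _ hx =>
      rw [smul_neg]
      exact AddSubgroup.neg_mem _ hx
  let S : Submodule k P :=
    { carrier := {x | x ∈ IP P θ.toHomUnits.range}
      zero_mem' := (IP P θ.toHomUnits.range).zero_mem
      add_mem' := fun hx hy => (IP P θ.toHomUnits.range).add_mem hx hy
      smul_mem' := fun a x hx => hsm a x hx }
  have hS : S = ⊤ := by
    by_contra hcon
    obtain ⟨f, hf, hfS⟩ := Submodule.exists_le_ker_of_lt_top S (lt_top_iff_ne_top.2 hcon)
    apply hf
    refine h f fun x p => ?_
    have h2 : p - θ x p ∈ S := sub_mem_IP (P := P) (MonoidHom.mem_range.2 ⟨x, rfl⟩) p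
    have h3 := hfS h2
    rw [LinearMap.mem_ker, map_sub, sub_eq_zero] at h3
    exact h3.symm
  have hT : IP P θ.toHomUnits.range = ⊤ := by
    rw [eq_top_iff]
    intro x _
    have h2 : x ∈ S := by rw [hS]; exact Submodule.mem_top
    exact h2
  rw [hT, AddSubgroup.card_top] at h1
  exact h1

variable {ι : Type}

/-- the extension of `P` by `k^ι` given by `γ` -/
def extE (θ : L →* Module.End k P) (γ : L → P →ₗ[k] (ι → k))
    (hγ : ∀ g h x, γ (g * h) x = γ g (θ h x) + γ h x) : L →* Module.End k ((ι → k) × P) where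
  toFun g :=
    { toFun := fun e => (e.1 + γ g e.2, θ g e.2)
      map_add' := fun e e' => by
        refine Prod.ext ?_ ?_
        · change e.1 + e'.1 + γ g (e.2 + e'.2) = (e.1 + γ g e.2) + (e'.1 + γ g e'.2)
          rw [map_add]
          abel
        · exact map_add (θ g) _ _
      map_smul' := fun a e => by
        refine Prod.ext ?_ ?_
        · change a • e.1 + γ g (a • e.2) = a • (e.1 + γ g e.2)
          rw [map_smul, smul_add]
        · exact map_smul (θ g) _ _ }
  map_one' := by
    have h1 : ∀ x, γ 1 x = 0 := fun x => by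
      have h := hγ 1 1 x
      rw [one_mul, map_one, Module.End.one_apply] at h
      exact left_eq_add.1 h
    refine LinearMap.ext fun e => Prod.ext ?_ ?_
    · change e.1 + γ 1 e.2 = e.1
      rw [h1, add_zero]
    · change θ 1 e.2 = e.2
      rw [map_one, Module.End.one_apply]
  map_mul' g h := by
    refine LinearMap.ext fun e => Prod.ext ?_ ?_
    · change e.1 + γ (g * h) e.2 = e.1 + γ h e.2 + γ g (θ h e.2)
      rw [hγ]
      abel
    · change θ (g * h) e.2 = θ g (θ h e.2)
      rw [map_mul, Module.End.mul_apply]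

/-- the crossed homomorphisms which lift to the extension -/
def Lf (θ : L →* Module.End k P) (γ : L → P →ₗ[k] (ι → k)) : Submodule k (Z1 θ) where
  carrier := {ξ | ∃ c : L → ι → k, ∀ g h, c (g * h) = c g + c h + γ g (ξ.1 h)}
  zero_mem' := ⟨0, fun g h => by simp⟩
  add_mem' := by
    rintro ξ ξ' ⟨c, hc⟩ ⟨c', hc'⟩
    refine ⟨c + c', fun g h => ?_⟩
    change c (g * h) + c' (g * h) = c g + c' g + (c h + c' h) + γ g (ξ.1 h + ξ'.1 h)
    rw [hc, hc', map_add]
    abel
  smul_mem' := by
    rintro a ξ ⟨c, hc⟩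
    refine ⟨a • c, fun g h => ?_⟩
    change a • c (g * h) = a • c g + a • c h + γ g (a • ξ.1 h)
    rw [hc, map_smul, smul_add, smul_add]

/-- the index of the crossed homomorphisms which lift -/
theorem card_Lf [Finite k] [Finite ι] [Finite P] {g : ℕ} (Φ : NatBij L (SurfG g))
    (θ : L →* Module.End k P) (γ : L → P →ₗ[k] (ι → k))
    (hγ : ∀ g h x, γ (g * h) x = γ g (θ h x) + γ h x)
    (H : ∀ (a : (ι → k) →ₗ[k] k) (f : P →ₗ[k] k), (∀ x p, a (γ x p) = f p - f (θ x p)) →
      a = 0 ∧ f = 0) :
    Nat.card (Lf θ γ) * Nat.card (ι → k) = Nat.card (Z1 θ) := by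
  -- the count for the extension
  have h1 := card_Z1 Φ (extE θ γ hγ) fun F hF => by
    obtain ⟨h2, h3⟩ := H (F.comp (LinearMap.inl k (ι → k) P)) (F.comp (LinearMap.inr k (ι → k) P))
      fun x p => by
        have h4 := hF x (0, p)
        change F (0 + γ x p, θ x p) = F (0, p) at h4
        rw [zero_add] at h4
        change F (γ x p, 0) = F (0, p) - F (0, θ x p)
        rw [← h4, ← map_sub]
        congr 1
        refine Prod.ext ?_ ?_
        · change γ x p = γ x p - 0
          rw [sub_zero]
        · change (0 : P) = θ x p - θ x p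
          rw [sub_self]
    refine LinearMap.ext fun e => ?_
    have h5 : e = LinearMap.inl k (ι → k) P e.1 + LinearMap.inr k (ι → k) P e.2 := by
      refine Prod.ext ?_ ?_
      · change e.1 = e.1 + 0
        rw [add_zero]
      · change e.2 = 0 + e.2
        rw [zero_add]
    rw [h5, map_add]
    have h6 := LinearMap.congr_fun h2 e.1
    have h7 := LinearMap.congr_fun h3 e.2
    change F (LinearMap.inl k (ι → k) P e.1) = 0 at h6
    change F (LinearMap.inr k (ι → k) P e.2) = 0 at h7
    rw [h6, h7, add_zero, LinearMap.zero_apply]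
  have h2 := card_Z1 Φ θ fun f hf => by
    refine (H 0 f fun x p => ?_).2
    rw [LinearMap.zero_apply, hf, sub_self]
  -- the homomorphisms to `k^ι`
  have h3 : Nat.card (Z1 (1 : L →* Module.End k (ι → k))) = Nat.card (ι → k) ^ (2 * g) := by
    have h4 := card_Z1_aux Φ (1 : L →* Module.End k (ι → k))
    have h5 : IP (ι → k) (1 : L →* Module.End k (ι → k)).toHomUnits.range = ⊥ := by
      rw [eq_bot_iff]
      unfold IP
      rw [AddSubgroup.closure_le]
      rintro _ ⟨q, ⟨l, rfl⟩, p, rfl⟩
      change p - (1 : L →* Module.End k (ι → k)) l p = 0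
      rw [MonoidHom.one_apply, Module.End.one_apply, sub_self]
    rwa [h5, AddSubgroup.card_bot, mul_one] at h4
  -- the projection
  let f : Z1 (extE θ γ hγ) →+ Z1 θ :=
    { toFun := fun c => ⟨fun l => (c.1 l).2, fun x y => by
        have h6 := c.2 x y
        exact congrArg Prod.snd h6⟩
      map_zero' := rfl
      map_add' := fun c c' => rfl }
  have hfr : Nat.card f.range = Nat.card (Lf θ γ) := by
    refine Nat.card_congr (Equiv.subtypeEquivRight fun ξ => ?_)
    constructor
    · rintro ⟨c, rfl⟩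
      refine ⟨fun l => (c.1 l).1, fun x y => ?_⟩
      have h6 := congrArg Prod.fst (c.2 x y)
      change (c.1 (x * y)).1 = (c.1 x).1 + ((c.1 y).1 + γ x (c.1 y).2) at h6
      change (c.1 (x * y)).1 = (c.1 x).1 + (c.1 y).1 + γ x (c.1 y).2
      rw [h6, ← add_assoc]
    · rintro ⟨c, hc⟩
      refine ⟨⟨fun l => (c l, ξ.1 l), fun x y => ?_⟩, rfl⟩
      refine Prod.ext ?_ ?_
      · change c (x * y) = c x + (c y + γ x (ξ.1 y))
        rw [hc, ← add_assoc]
      · exact ξ.2 x y
  have hfk : Nat.card f.ker = Nat.card (Z1 (1 : L →* Module.End k (ι → k))) := by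
    refine Nat.card_congr
      { toFun := fun c => ⟨fun l => (c.1.1 l).1, fun x y => ?_⟩
        invFun := fun c => ⟨⟨fun l => (c.1 l, 0), fun x y => ?_⟩, ?_⟩
        left_inv := fun c => ?_
        right_inv := fun c => rfl }
    · have h6 := congrArg Prod.fst (c.1.2 x y)
      change (c.1.1 (x * y)).1 = (c.1.1 x).1 + ((c.1.1 y).1 + γ x (c.1.1 y).2) at h6
      have h7 : (c.1.1 y).2 = 0 := congrFun (congrArg Subtype.val c.2) y
      rw [h7, map_zero, add_zero] at h6
      exact h6
    · have h6 := c.2 x y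
      refine Prod.ext ?_ ?_
      · change c.1 (x * y) = c.1 x + (c.1 y + γ x 0)
        rw [map_zero, add_zero]
        exact h6
      · change (0 : P) = 0 + θ x 0
        rw [map_zero, add_zero]
    · exact Subtype.ext rfl
    · refine Subtype.ext (Subtype.ext (funext fun l => ?_))
      have h7 : (c.1.1 l).2 = 0 := congrFun (congrArg Subtype.val c.2) l
      exact Prod.ext rfl h7.symm
  have hfin : Finite (Z1 (extE θ γ hγ)) := by
    have hp : 0 < Nat.card ((ι → k) × P) := Nat.card_pos
    have h8 : Nat.card (Z1 (extE θ γ hγ)) ≠ 0 := fun h0 => by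
      rw [h0, zero_mul] at h1
      exact (pow_pos hp _).ne h1
    exact Nat.finite_of_card_ne_zero h8
  have h9 := card_hom_eq f
  rw [hfr, hfk, h3] at h9
  rw [← h9, Nat.card_prod] at h1
  have hK : 0 < Nat.card (ι → k) := Nat.card_pos
  have hP : 0 < Nat.card P := Nat.card_pos
  have h10 : Nat.card (ι → k) ^ (2 * g) * (Nat.card (Lf θ γ) * Nat.card (ι → k) * Nat.card P) =
      Nat.card (ι → k) ^ (2 * g) * (Nat.card (Z1 θ) * Nat.card P) := by
    rw [h2, ← mul_pow, ← h1]
    ring
  have h11 := Nat.eq_of_mul_eq_mul_left (pow_pos hK _) h10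
  exact Nat.eq_of_mul_eq_mul_right hP h11

/-- a linear map to `k^ι` whose kernel lifts is surjective -/
theorem surj_of_ker [Finite k] [Finite ι] [Finite P] {g : ℕ} (Φ : NatBij L (SurfG g))
    (θ : L →* Module.End k P) (γ : L → P →ₗ[k] (ι → k))
    (hγ : ∀ g h x, γ (g * h) x = γ g (θ h x) + γ h x)
    (H : ∀ (a : (ι → k) →ₗ[k] k) (f : P →ₗ[k] k), (∀ x p, a (γ x p) = f p - f (θ x p)) →
      a = 0 ∧ f = 0)
    (t : Z1 θ →ₗ[k] (ι → k)) (ht : ∀ ξ, t ξ = 0 → ξ ∈ Lf θ γ) : Function.Surjective t := by
  have h1 := card_Lf Φ θ γ hγ H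
  have hK : 0 < Nat.card (ι → k) := Nat.card_pos
  have hP : 0 < Nat.card P := Nat.card_pos
  have hZ : Finite (Z1 θ) := by
    have h2 := card_Z1 Φ θ fun f hf => by
      refine (H 0 f fun x p => ?_).2
      rw [LinearMap.zero_apply, hf, sub_self]
    have h8 : Nat.card (Z1 θ) ≠ 0 := fun h0 => by
      rw [h0, zero_mul] at h2
      exact (pow_pos hP _).ne h2
    exact Nat.finite_of_card_ne_zero h8
  have h2 := card_hom_eq t.toAddMonoidHom
  have h3 : Nat.card t.toAddMonoidHom.ker ≤ Nat.card (Lf θ γ) := by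
    refine Nat.card_le_card_of_injective (fun x : t.toAddMonoidHom.ker =>
      (⟨x.1, ht x.1 x.2⟩ : Lf θ γ)) fun x y hxy => Subtype.ext ?_
    exact congrArg (fun z : Lf θ γ => (z : Z1 θ)) hxy
  have h4 : 0 < Nat.card (Lf θ γ) := Nat.card_pos
  rw [← h1] at h2
  have h5 : Nat.card (ι → k) ≤ Nat.card t.toAddMonoidHom.range := by
    by_contra hcon
    push Not at hcon
    have h6 : Nat.card t.toAddMonoidHom.ker * Nat.card t.toAddMonoidHom.range <
        Nat.card (Lf θ γ) * Nat.card (ι → k) :=
      lt_of_le_of_lt (Nat.mul_le_mul_right _ h3) (Nat.mul_lt_mul_of_pos_left hcon h4)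
    exact h6.ne h2
  have h6 : t.toAddMonoidHom.range = ⊤ :=
    AddSubgroup.eq_top_of_le_card _ h5
  intro y
  have h7 : y ∈ t.toAddMonoidHom.range := by rw [h6]; exact AddSubgroup.mem_top y
  exact h7

end

end Pool.Agent.SuIII
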