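import Pool.Agent.Lib.MP_305fdd_al.Su.III.Sl

/-!
# MP_305fdd_al, surface groups, block (III): dual lifts given by crossed homomorphisms
-/

set_option autoImplicit false

namespace Pool.Agent.SuIII

open Matrix Pool.Agent.SuUp Pool.Agent.SuD Pool.Agent.Lib.MP_305fdd_al Pool.Agent.MP_305fdd_al
  Pool.Agent.SurfCnt Pool.Agent.SuSM

section

variable {k : Type} [Field k] {L : Type} [Group L]

/-- the constants -/
def cs (k : Type) [Field k] : k →+* DualNumber k := TrivSqZeroExt.inlHom k k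

theorem cs_fst (x : k) : (cs k x).fst = x := TrivSqZeroExt.fst_inl k x

theorem cs_snd (x : k) : (cs k x).snd = 0 := TrivSqZeroExt.snd_inl k x

/-- `1 + ε X` -/
noncomputable def eX (X : s2 k) : SpecialLinearGroup (Fin 2) (DualNumber k) :=
  ((small_dual (κ := k)).exists_mk X.1 X.2).choose

theorem eX_val (X : s2 k) : (eX X).1 = 1 + X.1.map TrivSqZeroExt.inr :=
  ((small_dual (κ := k)).exists_mk X.1 X.2).choose_spec

theorem eX_add (X Y : s2 k) : eX (X + Y) = eX X * eX Y := by
  apply Subtype.ext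
  change (eX (X + Y)).1 = (eX X).1 * (eX Y).1
  rw [eX_val, eX_val, eX_val, (small_dual (κ := k)).mul_one_add]
  rfl

theorem eX_zero : eX (0 : s2 k) = 1 := by
  have h := eX_add (0 : s2 k) 0
  rw [add_zero] at h
  exact left_eq_mul.1 h

theorem eX_inj {X : s2 k} (h : eX X = 1) : X = 0 := by
  have h1 := eX_val X
  rw [h] at h1
  have h2 : X.1.map (TrivSqZeroExt.inr : k → DualNumber k) = 0 := by
    have h3 : (1 : Matrix (Fin 2) (Fin 2) (DualNumber k)) = 1 + X.1.map TrivSqZeroExt.inr := h1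
    exact left_eq_add.1 h3
  apply Subtype.ext
  ext i j
  have h3 := congrFun (congrFun h2 i) j
  exact (small_dual (κ := k)).inj _ h3

/-- constants and `1 + ε X` -/
theorem cs_eX (r : L →* SpecialLinearGroup (Fin 2) k) (g : L) (X : s2 k) :
    SpecialLinearGroup.map (cs k) (r g) * eX X =
      eX (ad r g X) * SpecialLinearGroup.map (cs k) (r g) := by
  apply Subtype.ext
  have hs := small_dual (κ := k)
  have h1 : ((SpecialLinearGroup.map (cs k) (r g)).1).map
      (TrivSqZeroExt.fstHom k k k : DualNumber k →ₐ[k] k).toRingHom = (r g).1 := by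
    ext i j
    exact cs_fst _
  change (SpecialLinearGroup.map (cs k) (r g)).1 * (eX X).1 =
    (eX (ad r g X)).1 * (SpecialLinearGroup.map (cs k) (r g)).1
  rw [eX_val, eX_val, Matrix.mul_add, Matrix.mul_one, Matrix.add_mul, Matrix.one_mul, hs.smul_map,
    hs.map_smul, h1]
  congr 2
  rw [ad_val, Matrix.mul_assoc, inv_mul_val, Matrix.mul_one]

/-- the dual lift of `r` given by `ξ` -/
noncomputable def dl (r : L →* SpecialLinearGroup (Fin 2) k) (ξ : L → s2 k)
    (hξ : ξ ∈ Z1 (ad r)) : L →* SpecialLinearGroup (Fin 2) (DualNumber k) :=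
  MonoidHom.mk' (fun l => eX (ξ l) * SpecialLinearGroup.map (cs k) (r l)) fun a b => by
    change eX (ξ (a * b)) * SpecialLinearGroup.map (cs k) (r (a * b)) =
      eX (ξ a) * SpecialLinearGroup.map (cs k) (r a) *
        (eX (ξ b) * SpecialLinearGroup.map (cs k) (r b))
    rw [hξ a b, eX_add, map_mul, map_mul]
    calc eX (ξ a) * eX (ad r a (ξ b)) * (SpecialLinearGroup.map (cs k) (r a) *
          SpecialLinearGroup.map (cs k) (r b))
        = eX (ξ a) * (eX (ad r a (ξ b)) * SpecialLinearGroup.map (cs k) (r a)) *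
          SpecialLinearGroup.map (cs k) (r b) := by simp only [mul_assoc]
      _ = _ := by rw [← cs_eX]; simp only [mul_assoc]

theorem dl_apply (r : L →* SpecialLinearGroup (Fin 2) k) (ξ : L → s2 k) (hξ : ξ ∈ Z1 (ad r))
    (l : L) : dl r ξ hξ l = eX (ξ l) * SpecialLinearGroup.map (cs k) (r l) := rfl

/-- the trace of a dual lift -/
theorem dl_trace (r : L →* SpecialLinearGroup (Fin 2) k) (ξ : L → s2 k) (hξ : ξ ∈ Z1 (ad r))
    (l : L) : ((dl r ξ hξ l).1.trace).fst = (r l).1.trace ∧
      ((dl r ξ hξ l).1.trace).snd = zt (r l).1 (ξ l) := by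
  have hs := small_dual (κ := k)
  have h1 : ((SpecialLinearGroup.map (cs k) (r l)).1).map
      (TrivSqZeroExt.fstHom k k k : DualNumber k →ₐ[k] k).toRingHom = (r l).1 := by
    ext i j
    exact cs_fst _
  have h2 : (dl r ξ hξ l).1 = (SpecialLinearGroup.map (cs k) (r l)).1 +
      ((ξ l).1 * (r l).1).map TrivSqZeroExt.inr := by
    change (eX (ξ l)).1 * (SpecialLinearGroup.map (cs k) (r l)).1 = _
    rw [eX_val, Matrix.add_mul, Matrix.one_mul, hs.map_smul, h1]
  rw [h2, Matrix.trace_add, TrivSqZeroExt.fst_add, TrivSqZeroExt.snd_add, zt_apply,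
    Matrix.trace_fin_two, Matrix.trace_fin_two, Matrix.trace_fin_two, Matrix.trace_fin_two]
  simp only [Matrix.map_apply, TrivSqZeroExt.fst_add, TrivSqZeroExt.snd_add,
    TrivSqZeroExt.fst_inr, TrivSqZeroExt.snd_inr, add_zero]
  have h3 : ∀ i j, ((SpecialLinearGroup.map (cs k) (r l)).1 i j).fst = (r l).1 i j :=
    fun i j => cs_fst _
  have h4 : ∀ i j, ((SpecialLinearGroup.map (cs k) (r l)).1 i j).snd = 0 := fun i j => cs_snd _
  rw [h3, h3, h4, h4, add_zero, zero_add]
  exact ⟨rfl, rfl⟩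

/-- a dual lift which is trivial at an element of the kernel -/
theorem dl_one (r : L →* SpecialLinearGroup (Fin 2) k) (ξ : L → s2 k) (hξ : ξ ∈ Z1 (ad r))
    {l : L} (h1 : r l = 1) (h : dl r ξ hξ l = 1) : ξ l = 0 := by
  rw [dl_apply, h1, map_one, mul_one] at h
  exact eX_inj h

end

end Pool.Agent.SuIII
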