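import Pool.Agent.Lib.MP_305fdd_al.Su.III.Pot
import Pool.Agent.Lib.MP_305fdd_al.Su.Up.Ess

/-!
# MP_305fdd_al, surface groups, block (III): equivariant transport given by an edge
-/

set_option autoImplicit false

namespace Pool.Agent.SuIII

open Pool.Agent.SuUp

section

variable {G V A : Type} [Group G] [MulAction G V] {X : SimpleGraph V} [AddCommGroup A]

/-- the edge `x y` is a translate of the edge `x₀ y₀` -/
def Tl (G : Type) {V : Type} [Group G] [MulAction G V] (x₀ y₀ x y : V) : Prop :=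
  ∃ g : G, (g • x₀ = x ∧ g • y₀ = y) ∨ (g • x₀ = y ∧ g • y₀ = x)

theorem Tl.symm {x₀ y₀ x y : V} (h : Tl G x₀ y₀ x y) : Tl G x₀ y₀ y x := by
  obtain ⟨g, h⟩ := h
  exact ⟨g, h.symm⟩

theorem Tl.smul {x₀ y₀ x y : V} (g : G) (h : Tl G x₀ y₀ x y) : Tl G x₀ y₀ (g • x) (g • y) := by
  obtain ⟨k, ⟨h1, h2⟩ | ⟨h1, h2⟩⟩ := h
  · exact ⟨g * k, Or.inl ⟨by rw [mul_smul, h1], by rw [mul_smul, h2]⟩⟩
  · exact ⟨g * k, Or.inr ⟨by rw [mul_smul, h1], by rw [mul_smul, h2]⟩⟩

theorem Tl.refl (x₀ y₀ : V) : Tl G x₀ y₀ x₀ y₀ := ⟨1, Or.inl ⟨one_smul _ _, one_smul _ _⟩⟩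

/-- a transport which is equivariant on the edges is equivariant -/
theorem Ta.equiv (hX : X.Connected) (hact : ∀ (g : G) (x y : V), X.Adj x y → X.Adj (g • x) (g • y))
    {D : V → V → A} (hD : Ta D) (a : G → A →+ A)
    (h : ∀ g x y, X.Adj x y → D (g • x) (g • y) = a g (D x y)) (g : G) (x y : V) :
    D (g • x) (g • y) = a g (D x y) := by
  have _ := hact
  refine Ta.unique hX (P := fun x y => D (g • x) (g • y)) (Q := fun x y => a g (D x y))
    ⟨fun x y z => hD.add _ _ _⟩ ⟨fun x y z => ?_⟩ (h g) x y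
  rw [← map_add, hD.add]

/-- EQUIVARIANT TRANSPORT (in modules of exponent two) -/
theorem exists_eta (hT : TA G X) (h2 : ∀ x : A, x + x = 0) (a : G →* AddMonoid.End A) {x₀ y₀ : V}
    (h0 : X.Adj x₀ y₀) (ζ : A) (hζ : ∀ s ∈ ES G x₀ y₀, a s ζ = ζ) :
    ∃ D : V → V → A, Ta D ∧ (∀ (g : G) (x y : V), D (g • x) (g • y) = a g (D x y)) ∧
      D x₀ y₀ = ζ ∧ ∀ x y, X.Adj x y → ¬ Tl G x₀ y₀ x y → D x y = 0 := by
  classical
  have hneg : ∀ x : A, -x = x := fun x => neg_eq_of_add_eq_zero_left (h2 x)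
  let m : V → V → A := fun x y => if h : Tl G x₀ y₀ x y then a h.choose ζ else 0
  -- the value does not depend on the choice
  have hm : ∀ (g : G) (x y : V), ((g • x₀ = x ∧ g • y₀ = y) ∨ (g • x₀ = y ∧ g • y₀ = x)) →
      m x y = a g ζ := by
    intro g x y hg
    have h1 : Tl G x₀ y₀ x y := ⟨g, hg⟩
    have h3 : m x y = a h1.choose ζ := dif_pos h1
    rw [h3]
    obtain hc | hc := h1.choose_spec
    · obtain hg | hg := hg
      · have h4 : g⁻¹ * h1.choose ∈ ES G x₀ y₀ := by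
          rw [mem_ES, mul_smul, mul_smul, hc.1, hc.2, ← hg.1, ← hg.2, inv_smul_smul,
            inv_smul_smul]
          exact ⟨rfl, rfl⟩
        have h5 := hζ _ h4
        calc a h1.choose ζ = a (g * (g⁻¹ * h1.choose)) ζ := by rw [mul_inv_cancel_left]
          _ = a g (a (g⁻¹ * h1.choose) ζ) := by rw [map_mul]; rfl
          _ = a g ζ := by rw [h5]
      · exfalso
        refine hT.noinv (g⁻¹ * h1.choose) x₀ y₀ h0 ?_
        rw [mul_smul, mul_smul, hc.1, hc.2, ← hg.1, ← hg.2, inv_smul_smul, inv_smul_smul]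
        exact ⟨rfl, rfl⟩
    · obtain hg | hg := hg
      · exfalso
        refine hT.noinv (g⁻¹ * h1.choose) x₀ y₀ h0 ?_
        rw [mul_smul, mul_smul, hc.1, hc.2, ← hg.1, ← hg.2, inv_smul_smul, inv_smul_smul]
        exact ⟨rfl, rfl⟩
      · have h4 : g⁻¹ * h1.choose ∈ ES G x₀ y₀ := by
          rw [mem_ES, mul_smul, mul_smul, hc.1, hc.2, ← hg.1, ← hg.2, inv_smul_smul,
            inv_smul_smul]
          exact ⟨rfl, rfl⟩
        have h5 := hζ _ h4
        calc a h1.choose ζ = a (g * (g⁻¹ * h1.choose)) ζ := by rw [mul_inv_cancel_left]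
          _ = a g (a (g⁻¹ * h1.choose) ζ) := by rw [map_mul]; rfl
          _ = a g ζ := by rw [h5]
  have hm0 : ∀ x y, ¬ Tl G x₀ y₀ x y → m x y = 0 := fun x y h => dif_neg h
  obtain ⟨D, hD, hDm⟩ := exists_ta hT.tree m fun u v _ => by
    rw [hneg]
    by_cases h : Tl G x₀ y₀ u v
    · obtain ⟨g, hg⟩ := h
      rw [hm g u v hg, hm g v u hg.symm]
    · rw [hm0 u v h, hm0 v u fun h' => h h'.symm]
  refine ⟨D, hD, ?_, ?_, fun x y h h' => by rw [hDm x y h, hm0 x y h']⟩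
  · refine Ta.equiv hT.tree.connected hT.act hD (fun g => a g) fun g x y h => ?_
    change D (g • x) (g • y) = a g (D x y)
    rw [hDm _ _ (hT.act g x y h), hDm x y h]
    by_cases hh : Tl G x₀ y₀ x y
    · obtain ⟨k, hk⟩ := hh
      rw [hm k x y hk, hm (g * k) (g • x) (g • y) (by
        obtain hk | hk := hk
        · exact Or.inl ⟨by rw [mul_smul, hk.1], by rw [mul_smul, hk.2]⟩
        · exact Or.inr ⟨by rw [mul_smul, hk.1], by rw [mul_smul, hk.2]⟩), map_mul]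
      rfl
    · rw [hm0 x y hh, hm0 _ _ fun h' => hh (by
        have := h'.smul g⁻¹
        rwa [inv_smul_smul, inv_smul_smul] at this), map_zero]
  · rw [hDm _ _ h0, hm 1 x₀ y₀ (Or.inl ⟨one_smul _ _, one_smul _ _⟩), map_one]
    rfl

end

end Pool.Agent.SuIII
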