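import Pool.Agent.Lib.MP_305fdd_al.Su.III.Core
import Pool.Agent.Lib.MP_305fdd_al.Su.III.Eta

/-!
# MP_305fdd_al, surface groups, block (III): crossed homomorphisms with given values on the edge groups
-/

set_option autoImplicit false

namespace Pool.Agent.SuIII

open Pool.Agent.SuUp Pool.Agent.SuD Pool.Agent.Lib.MP_305fdd_al Pool.Agent.MP_305fdd_al
  Pool.Agent.SurfCnt

section

variable {k : Type} [Field k] {G : Type} [Group G] {P : Type} [AddCommGroup P] [Module k P]

/-- the action on the dual -/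
def aD (θ : G →* Module.End k P) : G →* AddMonoid.End (P →ₗ[k] k) where
  toFun g :=
    { toFun := fun f => f.comp (θ g⁻¹)
      map_zero' := LinearMap.zero_comp _
      map_add' := fun f f' => LinearMap.add_comp _ _ _ }
  map_one' := by
    refine AddMonoidHom.ext fun f => LinearMap.ext fun p => ?_
    change f (θ 1⁻¹ p) = f p
    rw [inv_one, map_one, Module.End.one_apply]
  map_mul' g h := by
    refine AddMonoidHom.ext fun f => LinearMap.ext fun p => ?_
    change f (θ (g * h)⁻¹ p) = f (θ h⁻¹ (θ g⁻¹ p))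
    rw [mul_inv_rev, map_mul, Module.End.mul_apply]

theorem aD_apply (θ : G →* Module.End k P) (g : G) (f : P →ₗ[k] k) (p : P) :
    aD θ g f p = f (θ g⁻¹ p) := rfl

/-- the action on the functions given by the affine action of a crossed homomorphism -/
def aA (θ : G →* Module.End k P) (ξ : G → P) (hξ : ξ ∈ Z1 θ) : G →* AddMonoid.End (P → k) where
  toFun g :=
    { toFun := fun f p => f (θ g⁻¹ p + ξ g⁻¹)
      map_zero' := rfl
      map_add' := fun f f' => rfl }
  map_one' := by
    refine AddMonoidHom.ext fun f => funext fun p => ?_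
    change f (θ 1⁻¹ p + ξ 1⁻¹) = f p
    rw [inv_one, map_one, Module.End.one_apply, Z1_one hξ, add_zero]
  map_mul' g h := by
    refine AddMonoidHom.ext fun f => funext fun p => ?_
    change f (θ (g * h)⁻¹ p + ξ (g * h)⁻¹) = f (θ h⁻¹ (θ g⁻¹ p + ξ g⁻¹) + ξ h⁻¹)
    rw [mul_inv_rev, map_mul, Module.End.mul_apply, hξ, map_add, add_assoc, add_comm (ξ h⁻¹)]

theorem aA_apply (θ : G →* Module.End k P) (ξ : G → P) (hξ : ξ ∈ Z1 θ) (g : G) (f : P → k)
    (p : P) : aA θ ξ hξ g f p = f (θ g⁻¹ p + ξ g⁻¹) := rfl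

/-- THE TREE LIFT: for a crossed homomorphism which is principal on the stabiliser of the edge -/
theorem exists_lift_tree {V : Type} [MulAction G V] {X : SimpleGraph V} (hT : TA G X)
    (h2 : (2 : k) = 0) (θ : G →* Module.End k P) (ξ : G → P) (hξ : ξ ∈ Z1 θ) {x₀ y₀ : V}
    (h0 : X.Adj x₀ y₀) (ζ : P →ₗ[k] k) (hζ : ∀ s ∈ ES G x₀ y₀, ∀ p, ζ (θ s p) = ζ p)
    (q : P) (hq : ∀ s ∈ ES G x₀ y₀, ξ s = q - θ s q) (D : V → V → P →ₗ[k] k) (hD : Ta D)
    (hDe : ∀ (g : G) (x y : V), D (g • x) (g • y) = aD θ g (D x y)) (hD0 : D x₀ y₀ = ζ)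
    (hDn : ∀ x y, X.Adj x y → ¬ Tl G x₀ y₀ x y → D x y = 0) (v₀ : V) :
    ∃ c : G → k, ∀ g h, c (g * h) = c g + c h + D v₀ (g • v₀) (θ g (ξ h)) := by
  have hh : ∀ f : P → k, f + f = 0 := fun f => funext fun p => by
    change f p + f p = 0
    rw [← two_mul, h2, zero_mul]
  have hcc : ∀ g p, θ g (θ g⁻¹ p) = p := fun g p => by
    rw [← Module.End.mul_apply, ← map_mul, mul_inv_cancel, map_one, Module.End.one_apply]
  have hcc' : ∀ g p, θ g⁻¹ (θ g p) = p := fun g p => by
    rw [← Module.End.mul_apply, ← map_mul, inv_mul_cancel, map_one, Module.End.one_apply]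
  obtain ⟨E, hE, hEe, hE0, hEn⟩ := exists_eta hT hh (aA θ ξ hξ) h0 (fun p => ζ (p - q)) (by
    intro s hs
    have hs' := (ES G x₀ y₀).inv_mem hs
    refine funext fun p => ?_
    rw [aA_apply, hq _ hs']
    have e : θ s⁻¹ p + (q - θ s⁻¹ q) - q = θ s⁻¹ (p - q) := by rw [map_sub]; abel
    rw [e, hζ _ hs'])
  -- the transport consists of affine functions with linear part `D`
  have haff : ∀ (u v : P) (x y : V), E x y (u + v) = E x y u + D x y v := by
    intro u v
    refine Ta.unique hT.tree.connected (P := fun x y => E x y (u + v))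
      (Q := fun x y => E x y u + D x y v) ⟨fun x y z => ?_⟩ ⟨fun x y z => ?_⟩ ?_
    · change E x y (u + v) + E y z (u + v) = E x z (u + v)
      rw [← hE.add x y z, Pi.add_apply]
    · change E x y u + D x y v + (E y z u + D y z v) = E x z u + D x z v
      rw [← hE.add x y z, ← hD.add x y z, Pi.add_apply, LinearMap.add_apply]
      abel
    · have key : ∀ g : G, E (g • x₀) (g • y₀) (u + v) =
          E (g • x₀) (g • y₀) u + D (g • x₀) (g • y₀) v := by
        intro g
        rw [hEe, hDe, hE0, hD0, aA_apply, aA_apply, aD_apply, ← map_add]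
        congr 1
        rw [map_add]
        abel
      intro x y hxy
      by_cases ht : Tl G x₀ y₀ x y
      · obtain ⟨g, ⟨h3, h4⟩ | ⟨h3, h4⟩⟩ := ht
        · rw [← h3, ← h4]
          exact key g
        · rw [hE.neg y x, hD.neg y x, Pi.neg_apply, Pi.neg_apply, LinearMap.neg_apply, ← h3, ← h4,
            key g, neg_add]
      · rw [hEn x y hxy ht, hDn x y hxy ht]
        simp
  refine ⟨fun g => E v₀ (g • v₀) (ξ g), fun g h => ?_⟩
  change E v₀ ((g * h) • v₀) (ξ (g * h)) = E v₀ (g • v₀) (ξ g) + E v₀ (h • v₀) (ξ h) +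
    D v₀ (g • v₀) (θ g (ξ h))
  have h3 : E (g • v₀) ((g * h) • v₀) (ξ (g * h)) = E v₀ (h • v₀) (ξ h) := by
    rw [mul_smul, hEe, aA_apply]
    congr 1
    have h4 : ξ (g⁻¹ * (g * h)) = ξ g⁻¹ + θ g⁻¹ (ξ (g * h)) := hξ _ _
    rw [inv_mul_cancel_left] at h4
    rw [h4, add_comm]
  rw [← hE.add v₀ (g • v₀), Pi.add_apply, h3, hξ g h, haff]
  abel

/-- THEOREM: crossed homomorphisms with given values on the edge groups -/
theorem surj_tree {L : Type} [Group L] {g : ℕ} (Φ : NatBij L (SurfG g)) [Finite k] [Finite P]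
    (h2 : (2 : k) = 0) {V : Type} [MulAction G V] {X : SimpleGraph V} (hT : TA G X) (π : L →* G)
    (hπ : Function.Surjective π) (θ : G →* Module.End k P)
    (hfac : ∀ ξ ∈ Z1 (θ.comp π), ∀ l, π l = 1 → ξ l = 0) {ι : Type} [Finite ι] [Nonempty ι]
    (x y : ι → V) (hadj : ∀ i, X.Adj (x i) (y i))
    (hne : ∀ i j, i ≠ j → ¬ Tl G (x i) (y i) (x j) (y j))
    (hx : ∀ i, ∀ f : P →ₗ[k] k, (∀ s ∈ MulAction.stabilizer G (x i), ∀ p, f (θ s p) = f p) →
      f = 0)
    (hy : ∀ i, ∀ f : P →ₗ[k] k, (∀ s ∈ MulAction.stabilizer G (y i), ∀ p, f (θ s p) = f p) →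
      f = 0)
    (ζ : ι → P →ₗ[k] k) (hζ0 : ∀ i, ζ i ≠ 0) (z : ι → G)
    (hz : ∀ i, ES G (x i) (y i) = Subgroup.zpowers (z i))
    (hζ : ∀ i p, ζ i (θ (z i) p) = ζ i p)
    (hker : ∀ i p, ζ i p = 0 → ∃ q, p = q - θ (z i) q) (w : ι → L) (hw : ∀ i, π (w i) = z i)
    (v : ι → k) : ∃ ξ ∈ Z1 (θ.comp π), ∀ i, ζ i (ξ (w i)) = v i := by
  classical
  have := Fintype.ofFinite ι
  obtain ⟨v₀⟩ := hT.tree.connected.nonempty
  have hcc' : ∀ g p, θ g⁻¹ (θ g p) = p := fun g p => by
    rw [← Module.End.mul_apply, ← map_mul, inv_mul_cancel, map_one, Module.End.one_apply]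
  -- `ζ` is invariant under the edge groups
  have hζ' : ∀ i, ∀ s ∈ ES G (x i) (y i), ∀ p, ζ i (θ s p) = ζ i p := by
    intro i s hs
    let S : Subgroup G :=
      { carrier := {s | ∀ p, ζ i (θ s p) = ζ i p}
        one_mem' := fun p => by rw [map_one, Module.End.one_apply]
        mul_mem' := by
          intro a b ha hb p
          rw [map_mul, Module.End.mul_apply, ha, hb]
        inv_mem' := by
          intro a ha p
          rw [← ha (θ a⁻¹ p), ← Module.End.mul_apply, ← map_mul, mul_inv_cancel, map_one,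
            Module.End.one_apply] }
    rw [hz] at hs
    have h3 : Subgroup.zpowers (z i) ≤ S := by
      rw [Subgroup.zpowers_le]
      exact hζ i
    exact h3 hs
  have hh : ∀ f : P →ₗ[k] k, f + f = 0 := fun f => LinearMap.ext fun p => by
    change f p + f p = 0
    rw [← two_mul, h2, zero_mul]
  have hex := fun i => exists_eta hT hh (aD θ) (hadj i) (ζ i) (by
    intro s hs
    refine LinearMap.ext fun p => ?_
    rw [aD_apply, hζ' i _ ((ES G (x i) (y i)).inv_mem hs)])
  choose D hD hDe hD0 hDn using hex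
  let γ : L → P →ₗ[k] (ι → k) := fun l => LinearMap.pi fun i =>
    (D i v₀ (π l • v₀)).comp (θ (π l))
  have hγi : ∀ l p i, γ l p i = D i v₀ (π l • v₀) (θ (π l) p) := fun _ _ _ => rfl
  have hγ : ∀ a b p, γ (a * b) p = γ a ((θ.comp π) b p) + γ b p := by
    intro a b p
    funext i
    rw [Pi.add_apply, hγi, hγi, hγi, ← (hD i).add v₀ (π a • v₀), LinearMap.add_apply, map_mul,
      map_mul, Module.End.mul_apply]
    congr 1
    rw [mul_smul, hDe, aD_apply, hcc']
  have H : ∀ (a : (ι → k) →ₗ[k] k) (f : P →ₗ[k] k),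
      (∀ l p, a (γ l p) = f p - f ((θ.comp π) l p)) → a = 0 ∧ f = 0 := by
    intro a f haf
    let c : ι → k := fun i => a (Pi.single i 1)
    have hac : ∀ e : ι → k, a e = ∑ i, c i * e i := by
      intro e
      conv_lhs => rw [← Finset.univ_sum_single e]
      rw [map_sum]
      refine Finset.sum_congr rfl fun i _ => ?_
      have e1 : (Pi.single i (e i) : ι → k) = e i • Pi.single i (1 : k) := by
        rw [← Pi.single_smul', smul_eq_mul, mul_one]
      rw [e1, map_smul, smul_eq_mul, mul_comm]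
    let E : V → V → P →ₗ[k] k := fun x y => ∑ i, c i • D i x y
    have hEdef : ∀ x y, E x y = ∑ i, c i • D i x y := fun _ _ => rfl
    have hE : Ta E := ⟨fun x y z => by
      rw [hEdef, hEdef, hEdef, ← Finset.sum_add_distrib]
      refine Finset.sum_congr rfl fun i _ => ?_
      rw [← smul_add, (hD i).add]⟩
    have hEe : ∀ (g : G) (x y : V) p, E (g • x) (g • y) (θ g p) = E x y p := by
      intro g x y p
      rw [hEdef, hEdef, LinearMap.sum_apply, LinearMap.sum_apply]
      refine Finset.sum_congr rfl fun i _ => ?_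
      rw [LinearMap.smul_apply, LinearMap.smul_apply, hDe, aD_apply, hcc']
    have hEf : ∀ (g : G) p, E v₀ (g • v₀) (θ g p) = f p - f (θ g p) := by
      intro g p
      obtain ⟨l, rfl⟩ := hπ g
      have h3 := haf l p
      rw [hac] at h3
      rw [MonoidHom.comp_apply] at h3
      rw [← h3, hEdef, LinearMap.sum_apply]
      rfl
    have hval : ∀ u : V, (∀ f : P →ₗ[k] k, (∀ s ∈ MulAction.stabilizer G u, ∀ p,
        f (θ s p) = f p) → f = 0) → E v₀ u = -f := by
      intro u hu
      rw [eq_neg_iff_add_eq_zero]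
      apply hu
      intro s hs p
      have hsu : s • u = u := hs
      rw [LinearMap.add_apply, LinearMap.add_apply]
      have h3 : E v₀ u (θ s p) = E v₀ (s • v₀) (θ s p) + E (s • v₀) (s • u) (θ s p) := by
        rw [hsu, ← hE.add v₀ (s • v₀) u, LinearMap.add_apply]
      rw [h3, hEf, hEe]
      abel
    have hc : ∀ i, c i = 0 := by
      intro i
      have h3 : E (x i) (y i) = 0 := by
        have h4 := hE.add v₀ (x i) (y i)
        rw [hval _ (hx i), hval _ (hy i)] at h4
        exact add_eq_left.1 h4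
      have h4 : E (x i) (y i) = c i • ζ i := by
        rw [hEdef, Finset.sum_eq_single i]
        · rw [hD0]
        · intro j _ hj
          rw [hDn j _ _ (hadj i) (hne j i hj), smul_zero]
        · intro h
          exact absurd (Finset.mem_univ i) h
      rw [h3] at h4
      exact (smul_eq_zero.1 h4.symm).resolve_right (hζ0 i)
    have ha : a = 0 := by
      refine LinearMap.ext fun e => ?_
      rw [hac, LinearMap.zero_apply]
      exact Finset.sum_eq_zero fun i _ => by rw [hc, zero_mul]
    refine ⟨ha, ?_⟩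
    obtain ⟨i⟩ := ‹Nonempty ι›
    have h3 := hval _ (hx i)
    have h4 : E v₀ (x i) = 0 := by
      rw [hEdef]
      exact Finset.sum_eq_zero fun j _ => by rw [hc, zero_smul]
    rw [h4] at h3
    exact neg_eq_zero.1 h3.symm
  let t : Z1 (θ.comp π) →ₗ[k] (ι → k) :=
    { toFun := fun ξ i => ζ i (ξ.1 (w i))
      map_add' := fun ξ ξ' => funext fun i => map_add (ζ i) _ _
      map_smul' := fun a ξ => funext fun i => map_smul (ζ i) _ _ }
  have ht : ∀ ξ, t ξ = 0 → ξ ∈ Lf (θ.comp π) γ := by
    intro ξ hξ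
    have h3 : ∀ i, ∃ q, ξ.1 (w i) = q - θ (z i) q := fun i => hker i _ (congrFun hξ i)
    choose q hq using h3
    -- the crossed homomorphism of `G`
    let η : G → P := fun s => ξ.1 (Function.surjInv hπ s)
    have hη : ∀ l, η (π l) = ξ.1 l := by
      intro l
      have h4 : π (l⁻¹ * Function.surjInv hπ (π l)) = 1 := by
        rw [map_mul, map_inv, Function.surjInv_eq hπ, inv_mul_cancel]
      have h5 := hfac ξ.1 ξ.2 _ h4
      have h6 := ξ.2 l (l⁻¹ * Function.surjInv hπ (π l))
      rw [mul_inv_cancel_left, h5, map_zero, add_zero] at h6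
      exact h6
    have hηc : η ∈ Z1 θ := by
      intro s s'
      obtain ⟨l, rfl⟩ := hπ s
      obtain ⟨l', rfl⟩ := hπ s'
      rw [← map_mul, hη, hη, hη]
      exact ξ.2 l l'
    have hηi : ∀ i, ∀ s ∈ ES G (x i) (y i), η s = q i - θ s (q i) := by
      intro i s hs
      let S : Subgroup G :=
        { carrier := {s | η s = q i - θ s (q i)}
          one_mem' := by
            change η 1 = q i - θ 1 (q i)
            rw [Z1_one hηc, map_one, Module.End.one_apply, sub_self]
          mul_mem' := by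
            intro a b ha hb
            change η a = q i - θ a (q i) at ha
            change η b = q i - θ b (q i) at hb
            change η (a * b) = q i - θ (a * b) (q i)
            rw [hηc a b, ha, hb, map_mul, Module.End.mul_apply, map_sub]
            abel
          inv_mem' := by
            intro a ha
            change η a = q i - θ a (q i) at ha
            change η a⁻¹ = q i - θ a⁻¹ (q i)
            have h4 := hηc a⁻¹ a
            rw [inv_mul_cancel, Z1_one hηc, ha, map_sub, hcc'] at h4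
            rw [eq_comm, add_eq_zero_iff_eq_neg] at h4
            rw [h4]
            abel }
      rw [hz] at hs
      have h3 : Subgroup.zpowers (z i) ≤ S := by
        rw [Subgroup.zpowers_le]
        change η (z i) = q i - θ (z i) (q i)
        rw [← hq i, ← hη, hw]
      exact h3 hs
    have h4 := fun i => exists_lift_tree hT h2 θ η hηc (hadj i) (ζ i) (hζ' i) (q i) (hηi i) (D i)
      (hD i) (hDe i) (hD0 i) (hDn i) v₀
    choose c hc using h4
    refine ⟨fun l i => c i (π l), fun a b => ?_⟩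
    funext i
    change c i (π (a * b)) = c i (π a) + c i (π b) + γ a (ξ.1 b) i
    rw [map_mul, hc, hγi, hη]
  obtain ⟨ξ, hξ⟩ := surj_of_ker Φ (θ.comp π) γ hγ H t ht v
  exact ⟨ξ.1, ξ.2, fun i => congrFun hξ i⟩

end

end Pool.Agent.SuIII
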