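import Pool.Agent.Lib.MP_305fdd_al.Su.III.Pot
import Pool.Agent.Lib.MP_305fdd_al.Su.StmTree

/-!
# MP_305fdd_al, surface groups, block (III)(B1): the nondefect representation

Two representations `ρ₀, ρ₁` of `G` over `R` with the same specialisation, whose traces agree on the edge
groups outside the orbit of the edge `u v` which join the two types of vertices, are glued to one
representation of the stabiliser of a component: on the vertex groups of type `0` it is conjugate to
`ρ₀`, on those of type `1` to `ρ₁`.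
-/

set_option autoImplicit false

namespace Pool.Agent.SuIII

open Matrix Pool.Agent.SuUp Pool.Agent.FrT Pool.Agent.SuT

/-- nondefect: there is a representation of `A` over a domain of characteristic two which specialises to
`ρ` and separates the traces of `z` and `z'` -/
def NDf {G F : Type} [Group G] [Field F] (ρ : G →* SpecialLinearGroup (Fin 2) F) (A : Subgroup G)
    (z z' : G) : Prop :=
  ∃ (R F' : Type) (_ : CommRing R) (_ : IsDomain R) (_ : Field F') (_ : Algebra (ZMod 2) R)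
    (i : F →+* F') (s : R →+* F') (r : A →* SpecialLinearGroup (Fin 2) R),
    (∀ a : A, SpecialLinearGroup.map s (r a) = SpecialLinearGroup.map i (ρ a)) ∧
    ∃ (hz : z ∈ A) (hz' : z' ∈ A), (r ⟨z, hz⟩).1.trace ≠ (r ⟨z', hz'⟩).1.trace

section ext

/-- equivariant extension -/
theorem equiv_ext {G Ω M : Type} [Group G] [MulAction G Ω] [Group M] (a0 a1 : G →* M)
    (S : Ω → Prop) (hS : ∀ (g : G) p, S p → S (g • p)) (n : Ω → M)
    (hn : ∀ p, S p → ∀ g : G, g • p = p → a0 g * n p * (a1 g)⁻¹ = n p) :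
    ∃ m : Ω → M, (∀ (g : G) p, S p → m (g • p) = a0 g * m p * (a1 g)⁻¹) ∧
      ∀ p, S p → ∃ p', S p' ∧ ∃ g : G, m p = a0 g * n p' * (a1 g)⁻¹ := by
  classical
  have hrep : ∀ p : Ω, ∃ g : G, g • (Quotient.out (Quotient.mk (MulAction.orbitRel G Ω) p)) = p := by
    intro p
    have h1 : (MulAction.orbitRel G Ω) (Quotient.out (Quotient.mk (MulAction.orbitRel G Ω) p)) p :=
      Quotient.mk_out p
    have h2 := (MulAction.orbitRel G Ω).symm h1
    obtain ⟨g, hg⟩ := MulAction.orbitRel_apply.1 h2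
    exact ⟨g, hg⟩
  choose c hc using hrep
  set o : Ω → Ω := fun p => Quotient.out (Quotient.mk (MulAction.orbitRel G Ω) p) with ho
  have ho1 : ∀ (g : G) p, o (g • p) = o p := by
    intro g p
    simp only [ho]
    congr 1
    apply Quotient.sound
    show (MulAction.orbitRel G Ω) (g • p) p
    rw [MulAction.orbitRel_apply]
    exact ⟨g, rfl⟩
  have hSo : ∀ p, S p → S (o p) := by
    intro p hp
    have h1 : o p = (c p)⁻¹ • p := by
      rw [eq_inv_smul_iff]
      exact hc p
    rw [h1]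
    exact hS _ _ hp
  refine ⟨fun p => a0 (c p) * n (o p) * (a1 (c p))⁻¹, fun g p hp => ?_, fun p hp =>
    ⟨o p, hSo p hp, c p, rfl⟩⟩
  have h1 : ((c (g • p))⁻¹ * (g * c p)) • o p = o p := by
    rw [mul_smul, mul_smul]
    have e1 : c p • o p = p := hc p
    have e2 : c (g • p) • o (g • p) = g • p := hc _
    rw [ho1] at e2
    rw [e1, inv_smul_eq_iff, e2]
  have h2 := hn (o p) (hSo p hp) _ h1
  show a0 (c (g • p)) * n (o (g • p)) * (a1 (c (g • p)))⁻¹ =
    a0 g * (a0 (c p) * n (o p) * (a1 (c p))⁻¹) * (a1 g)⁻¹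
  rw [ho1]
  set k := (c (g • p))⁻¹ * (g * c p) with hk
  have h3 : g * c p = c (g • p) * k := by
    rw [hk]
    group
  calc a0 (c (g • p)) * n (o p) * (a1 (c (g • p)))⁻¹
      = a0 (c (g • p)) * (a0 k * n (o p) * (a1 k)⁻¹) * (a1 (c (g • p)))⁻¹ := by rw [h2]
    _ = a0 (c (g • p) * k) * n (o p) * (a1 (c (g • p) * k))⁻¹ := by
        simp only [map_mul, _root_.mul_inv_rev, mul_assoc]
    _ = a0 (g * c p) * n (o p) * (a1 (g * c p))⁻¹ := by rw [h3]
    _ = _ := by
        simp only [map_mul, _root_.mul_inv_rev, mul_assoc]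

end ext

section twine

variable {R F' : Type} [CommRing R] [Field F'] [Algebra (ZMod 2) R]

theorem two_zero : (2 : R) = 0 := by
  have h : algebraMap (ZMod 2) R 2 = 0 := by
    have : (2 : ZMod 2) = 0 := by decide
    rw [this, map_zero]
  rw [← h, map_ofNat]

/-- an intertwiner of two matrices with the same trace and the same specialisation, which specialises
to `1` -/
theorem exists_twine (s : R →+* F') (hsq : ∀ r : R, ∃ r', r' ^ 2 = r)
    (hun : ∀ r : R, s r ≠ 0 → IsUnit r) (M0 M1 : SpecialLinearGroup (Fin 2) R)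
    (ht : M0.1.trace = M1.1.trace)
    (hs : SpecialLinearGroup.map s M0 = SpecialLinearGroup.map s M1) (h0 : s (M0.1.trace) ≠ 0) :
    ∃ N : SpecialLinearGroup (Fin 2) R, M0 * N = N * M1 ∧ SpecialLinearGroup.map s N = 1 := by
  have h2 : (2 : R) = 0 := two_zero
  have h2' : (2 : F') = 0 := by
    rw [← map_ofNat s 2, h2, map_zero]
  have hd : M0.1 0 0 * M0.1 1 1 - M0.1 0 1 * M0.1 1 0 = 1 := by
    rw [← Matrix.det_fin_two]
    exact M0.2
  have hd' : M1.1 0 0 * M1.1 1 1 - M1.1 0 1 * M1.1 1 0 = 1 := by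
    rw [← Matrix.det_fin_two]
    exact M1.2
  have hT : M0.1 0 0 + M0.1 1 1 = M1.1 0 0 + M1.1 1 1 := by
    rw [← Matrix.trace_fin_two, ← Matrix.trace_fin_two]
    exact ht
  have h0' : s (M0.1 0 0 + M0.1 1 1) ≠ 0 := by
    rwa [← Matrix.trace_fin_two]
  have hse : ∀ i j, s (M0.1 i j) = s (M1.1 i j) := by
    intro i j
    have := congrArg (fun A : SpecialLinearGroup (Fin 2) F' => A.1 i j) hs
    simpa using this
  have s00 := hse 0 0
  have s01 := hse 0 1
  have s10 := hse 1 0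
  have s11 := hse 1 1
  obtain ⟨a, ha⟩ : ∃ a, a = M0.1 0 0 := ⟨_, rfl⟩
  obtain ⟨b, hb⟩ : ∃ b, b = M0.1 0 1 := ⟨_, rfl⟩
  obtain ⟨c, hc⟩ : ∃ c, c = M0.1 1 0 := ⟨_, rfl⟩
  obtain ⟨d, hdd⟩ : ∃ d, d = M0.1 1 1 := ⟨_, rfl⟩
  obtain ⟨a', ha'⟩ : ∃ a, a = M1.1 0 0 := ⟨_, rfl⟩
  obtain ⟨b', hb'⟩ : ∃ b, b = M1.1 0 1 := ⟨_, rfl⟩
  obtain ⟨c', hc'⟩ : ∃ c, c = M1.1 1 0 := ⟨_, rfl⟩
  obtain ⟨d', hdd'⟩ : ∃ d, d = M1.1 1 1 := ⟨_, rfl⟩
  rw [← ha, ← hb, ← hc, ← hdd] at hd
  rw [← ha', ← hb', ← hc', ← hdd'] at hd'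
  rw [← ha, ← ha', ← hdd, ← hdd'] at hT
  rw [← ha, ← hdd] at h0'
  rw [← ha, ← ha'] at s00
  rw [← hb, ← hb'] at s01
  rw [← hc, ← hc'] at s10
  rw [← hdd, ← hdd'] at s11
  obtain ⟨D, hD⟩ : ∃ D, D = (a + d') * (d + a') - (b - b') * (c - c') := ⟨_, rfl⟩
  have hsD : s D = s (a + d) ^ 2 := by
    rw [hD]
    simp only [map_add, map_sub, map_mul]
    rw [s00, s01, s10, s11]
    ring
  obtain ⟨e, he⟩ := hsq D
  have hse : s e = s (a + d) := by
    have h3 : (s e - s (a + d)) ^ 2 = 0 := by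
      have h4 : s e ^ 2 = s (a + d) ^ 2 := by rw [← map_pow, he, hsD]
      linear_combination h4 + (s (a + d) ^ 2 - s e * s (a + d)) * h2'
    have h5 := pow_eq_zero_iff (two_ne_zero) |>.1 h3
    linear_combination h5
  have heu : IsUnit e := hun e (by rw [hse]; exact h0')
  obtain ⟨w, hw⟩ := heu.exists_right_inv
  have hw2 : w ^ 2 * D = 1 := by
    rw [← he]
    linear_combination (e * w + 1) * hw
  have hsw : s w * s (a + d) = 1 := by
    rw [← hse, ← map_mul, mul_comm w e, hw, map_one]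
  let N : SpecialLinearGroup (Fin 2) R :=
    ⟨!![w * (a + d'), w * (b - b'); w * (c - c'), w * (d + a')], by
      rw [Matrix.det_fin_two_of]
      rw [hD] at hw2
      linear_combination hw2⟩
  have hN : N.1 = !![w * (a + d'), w * (b - b'); w * (c - c'), w * (d + a')] := rfl
  refine ⟨N, ?_, ?_⟩
  · apply Subtype.ext
    have e1 : (M0 * N).1 = M0.1 * N.1 := rfl
    have e2 : (N * M1).1 = N.1 * M1.1 := rfl
    rw [e1, e2, hN]
    have m0 : M0.1 = !![a, b; c, d] := by
      rw [ha, hb, hc, hdd]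
      exact Matrix.eta_fin_two _
    have m1 : M1.1 = !![a', b'; c', d'] := by
      rw [ha', hb', hc', hdd']
      exact Matrix.eta_fin_two _
    rw [m0, m1, Matrix.mul_fin_two, Matrix.mul_fin_two]
    congr 1
    refine congrArg₂ _ ?_ ?_
    · refine congrArg₂ _ ?_ (congrArg₂ _ ?_ rfl)
      · linear_combination w * ((-1) * hd + (-1) * hd' + a * hT + (a*d' - 1 - b*c') * h2)
      · linear_combination w * (b * hT + (b*a' - a*b') * h2)
    · refine congrArg₂ _ ?_ rfl
      refine congrArg₂ _ ?_ (congrArg₂ _ ?_ rfl)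
      · linear_combination w * (c * hT + (c * d' - d * c') * h2)
      · linear_combination w * ((-1) * hd + (-1) * hd' + d * hT + (d * a' - c * b' - 1) * h2)
  · ext i j
    have e1 : (SpecialLinearGroup.map s N).1 i j = s (N.1 i j) := rfl
    have e2 : ((SpecialLinearGroup.map s N : SpecialLinearGroup (Fin 2) F') : Matrix (Fin 2) (Fin 2) F') i j = s (N.1 i j) := rfl
    rw [e2, hN]
    fin_cases i <;> fin_cases j
    · show s (w * (a + d')) = 1
      rw [map_mul, map_add, ← s11, ← map_add, hsw]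
    · show s (w * (b - b')) = 0
      rw [map_mul, map_sub, s01, sub_self, mul_zero]
    · show s (w * (c - c')) = 0
      rw [map_mul, map_sub, s10, sub_self, mul_zero]
    · show s (w * (d + a')) = 1
      rw [map_mul, map_add, ← s00, ← map_add, add_comm d a, hsw]

end twine

section glue

variable {G V : Type} [Group G] [MulAction G V] {X : SimpleGraph V}

theorem orb_smul {u v x y : V} (g : G) (h : s(x, y) ∉ Orb G u v) : s(g • x, g • y) ∉ Orb G u v := by
  rintro ⟨k, hk⟩
  apply h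
  refine ⟨g⁻¹ * k, ?_⟩
  rw [mul_smul, mul_smul]
  have := congrArg (Sym2.map (fun x => g⁻¹ • x)) hk
  simpa using this

theorem orb_swap {u v x y : V} (h : s(x, y) ∉ Orb G u v) : s(y, x) ∉ Orb G u v := by
  rwa [Sym2.eq_swap]

theorem rch_ind {u v : V} (C : V → V → Prop) (h0 : ∀ x, C x x)
    (h1 : ∀ x y z, X.Adj x y → s(x, y) ∉ Orb G u v → C y z → C x z) {x y : V}
    (h : Rch G X u v x y) : C x y := by
  obtain ⟨w⟩ := h
  induction w with
  | nil => exact h0 _
  | cons h _ ih =>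
    rw [SimpleGraph.deleteEdges_adj] at h
    exact h1 _ _ _ h.1 h.2 ih

variable {F R F' : Type} [Field F] [CommRing R] [Field F'] [Algebra (ZMod 2) R]

theorem trace_map {A B : Type} [CommRing A] [CommRing B] (f : A →+* B)
    (M : SpecialLinearGroup (Fin 2) A) : (SpecialLinearGroup.map f M).1.trace = f M.1.trace := by
  rw [Matrix.trace_fin_two, Matrix.trace_fin_two, map_add]
  rfl

/-- the transport between the vertex groups -/
theorem exists_glue (hT : TA G X) (ρ : G →* SpecialLinearGroup (Fin 2) F) (u v : V) (τ : V → Bool)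
    (hτ : ∀ (g : G) x, τ (g • x) = τ x) (i : F →+* F') (j : Bool → F →+* R) (s : R →+* F')
    (hj : ∀ b a, s (j b a) = i a) (hsq : ∀ r : R, ∃ r', r' ^ 2 = r)
    (hun : ∀ r : R, s r ≠ 0 → IsUnit r)
    (hE : ∀ x y, X.Adj x y → s(x, y) ∉ Orb G u v → τ x = false → τ y = true →
      ∃ z, ES G x y = Subgroup.zpowers z ∧ j false (ρ z).1.trace = j true (ρ z).1.trace ∧
        (ρ z).1.trace ≠ 0) :
    ∃ P : V → V → SpecialLinearGroup (Fin 2) R, Tp P ∧
      (∀ (g : G) x y, Rch G X u v x y → P (g • x) (g • y) =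
        SpecialLinearGroup.map (j (τ x)) (ρ g) * P x y *
          (SpecialLinearGroup.map (j (τ y)) (ρ g))⁻¹) ∧
      ∀ x y, Rch G X u v x y → SpecialLinearGroup.map s (P x y) = 1 := by
  classical
  let a : Bool → G →* SpecialLinearGroup (Fin 2) R := fun b => (SpecialLinearGroup.map (j b)).comp ρ
  have hsa : ∀ b g, SpecialLinearGroup.map s (a b g) = SpecialLinearGroup.map i (ρ g) := by
    intro b g
    ext k l
    exact hj b _
  let S : V × V → Prop := fun p => X.Adj p.1 p.2 ∧ s(p.1, p.2) ∉ Orb G u v ∧ τ p.1 = false ∧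
    τ p.2 = true
  have hS : ∀ (g : G) p, S p → S (g • p) := by
    rintro g ⟨x, y⟩ ⟨h1, h2, h3, h4⟩
    exact ⟨hT.act g x y h1, orb_smul g h2, by rw [Prod.smul_fst, hτ]; exact h3,
      by rw [Prod.smul_snd, hτ]; exact h4⟩
  have hn : ∀ p : V × V, ∃ N : SpecialLinearGroup (Fin 2) R, S p →
      (∀ g : G, g • p = p → a false g * N * (a true g)⁻¹ = N) ∧ SpecialLinearGroup.map s N = 1 := by
    rintro ⟨x, y⟩
    by_cases hp : S (x, y)
    · obtain ⟨h1, h2, h3, h4⟩ := hp
      obtain ⟨z, hz, htr, hne⟩ := hE x y h1 h2 h3 h4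
      obtain ⟨N, hN1, hN2⟩ := exists_twine s hsq hun (a false z) (a true z)
        (by
          show (SpecialLinearGroup.map (j false) (ρ z)).1.trace =
            (SpecialLinearGroup.map (j true) (ρ z)).1.trace
          rw [trace_map, trace_map, htr])
        (by rw [hsa, hsa])
        (by
          show s (SpecialLinearGroup.map (j false) (ρ z)).1.trace ≠ 0
          rw [trace_map, hj]
          exact (map_ne_zero i).2 hne)
      refine ⟨N, fun _ => ⟨fun g hg => ?_, hN2⟩⟩
      have hg' : g ∈ ES G x y := mem_ES.2 ⟨congrArg Prod.fst hg, congrArg Prod.snd hg⟩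
      rw [hz] at hg'
      obtain ⟨k, rfl⟩ := Subgroup.mem_zpowers_iff.1 hg'
      have h5 : SemiconjBy N (a true z) (a false z) := hN1.symm
      have h6 := h5.zpow_right k
      rw [map_zpow, map_zpow, ← h6.eq, mul_assoc, mul_inv_cancel, mul_one]
    · exact ⟨1, fun h => absurd h hp⟩
  choose n hn using hn
  obtain ⟨m0, hm1, hm2⟩ := equiv_ext (a false) (a true) S hS n (fun p hp => (hn p hp).1)
  have hm3 : ∀ p, S p → SpecialLinearGroup.map s (m0 p) = 1 := by
    intro p hp
    obtain ⟨p', hp', g, hg⟩ := hm2 p hp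
    rw [hg, map_mul, map_mul, map_inv, hsa, hsa, (hn p' hp').2, mul_one, mul_inv_cancel]
  let m : V → V → SpecialLinearGroup (Fin 2) R := fun x y =>
    if τ x = τ y then 1 else if τ x = false then m0 (x, y) else (m0 (y, x))⁻¹
  have hminv : ∀ x y, X.Adj x y → m y x = (m x y)⁻¹ := by
    intro x y _
    simp only [m]
    by_cases h1 : τ x = τ y
    · rw [if_pos h1, if_pos h1.symm, inv_one]
    · rw [if_neg h1, if_neg (Ne.symm h1)]
      cases hx : τ x <;> cases hy : τ y
      · exact absurd (hx.trans hy.symm) h1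
      · simp
      · simp
      · exact absurd (hx.trans hy.symm) h1
  obtain ⟨P, hP, hPm⟩ := exists_tp hT.tree m hminv
  have hmS : ∀ x y, X.Adj x y → s(x, y) ∉ Orb G u v → ∀ g : G, m (g • x) (g • y) =
      a (τ x) g * m x y * (a (τ y) g)⁻¹ := by
    intro x y hxy ho g
    simp only [m, hτ]
    by_cases h1 : τ x = τ y
    · rw [if_pos h1, if_pos h1, h1, mul_one, mul_inv_cancel]
    · rw [if_neg h1, if_neg h1]
      cases hx : τ x <;> cases hy : τ y
      · exact absurd (hx.trans hy.symm) h1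
      · rw [if_pos rfl, if_pos rfl]
        exact hm1 g (x, y) ⟨hxy, ho, hx, hy⟩
      · rw [if_neg (by decide), if_neg (by decide)]
        have := hm1 g (y, x) ⟨hxy.symm, orb_swap ho, hy, hx⟩
        have e : g • (y, x) = (g • y, g • x) := rfl
        rw [e] at this
        rw [this]
        simp only [_root_.mul_inv_rev, inv_inv, mul_assoc]
      · exact absurd (hx.trans hy.symm) h1
  have hms : ∀ x y, X.Adj x y → s(x, y) ∉ Orb G u v → SpecialLinearGroup.map s (m x y) = 1 := by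
    intro x y hxy ho
    simp only [m]
    by_cases h1 : τ x = τ y
    · rw [if_pos h1, map_one]
    · rw [if_neg h1]
      cases hx : τ x <;> cases hy : τ y
      · exact absurd (hx.trans hy.symm) h1
      · rw [if_pos rfl]
        exact hm3 (x, y) ⟨hxy, ho, hx, hy⟩
      · rw [if_neg (by decide), map_inv, hm3 (y, x) ⟨hxy.symm, orb_swap ho, hy, hx⟩, inv_one]
      · exact absurd (hx.trans hy.symm) h1
  refine ⟨P, hP, fun g x y hxy => ?_, fun x y hxy => ?_⟩
  · refine rch_ind (fun x y => P (g • x) (g • y) = a (τ x) g * P x y * (a (τ y) g)⁻¹) ?_ ?_ hxy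
    · intro x
      rw [hP.self, hP.self, mul_one, mul_inv_cancel]
    · intro x y z hxy ho ih
      rw [← hP.mul (g • x) (g • y) (g • z), ih, hPm _ _ (hT.act g x y hxy), hmS x y hxy ho g,
        ← hP.mul x y z, hPm x y hxy]
      group
  · refine rch_ind (fun x y => SpecialLinearGroup.map s (P x y) = 1) ?_ ?_ hxy
    · intro x
      rw [hP.self, map_one]
    · intro x y z hxy ho ih
      rw [← hP.mul x y z, map_mul, ih, hPm x y hxy, hms x y hxy ho, mul_one]

/-- the representation of the stabiliser of the component of `x₀` -/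
theorem exists_rep (hT : TA G X) (ρ : G →* SpecialLinearGroup (Fin 2) F) (u v : V) (τ : V → Bool)
    (hτ : ∀ (g : G) x, τ (g • x) = τ x) (i : F →+* F') (j : Bool → F →+* R) (s : R →+* F')
    (hj : ∀ b a, s (j b a) = i a) (hsq : ∀ r : R, ∃ r', r' ^ 2 = r)
    (hun : ∀ r : R, s r ≠ 0 → IsUnit r)
    (hE : ∀ x y, X.Adj x y → s(x, y) ∉ Orb G u v → τ x = false → τ y = true →
      ∃ z, ES G x y = Subgroup.zpowers z ∧ j false (ρ z).1.trace = j true (ρ z).1.trace ∧
        (ρ z).1.trace ≠ 0)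
    (A : Subgroup G) (x₀ : V) (hA : ∀ g ∈ A, Rch G X u v x₀ (g • x₀)) :
    ∃ r : A →* SpecialLinearGroup (Fin 2) R,
      (∀ a : A, SpecialLinearGroup.map s (r a) = SpecialLinearGroup.map i (ρ a)) ∧
      ∀ (x : V), Rch G X u v x₀ x → ∀ z : A, (z : G) • x = x →
        (r z).1.trace = j (τ x) (ρ z).1.trace := by
  obtain ⟨P, hP, hP1, hP2⟩ := exists_glue hT ρ u v τ hτ i j s hj hsq hun hE
  have hsa : ∀ b g, SpecialLinearGroup.map s (SpecialLinearGroup.map (j b) (ρ g)) =
      SpecialLinearGroup.map i (ρ g) := by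
    intro b g
    ext k l
    exact hj b _
  let f : A → SpecialLinearGroup (Fin 2) R := fun g => P x₀ ((g : G) • x₀) *
    SpecialLinearGroup.map (j (τ x₀)) (ρ g)
  have hmul : ∀ g h : A, f (g * h) = f g * f h := by
    intro g h
    have h1 := hP1 (g : G) x₀ ((h : G) • x₀) (hA h h.2)
    rw [hτ] at h1
    simp only [f, Subgroup.coe_mul, mul_smul]
    rw [← hP.mul x₀ ((g : G) • x₀) ((g : G) • (h : G) • x₀), h1, map_mul, map_mul]
    group
  refine ⟨MonoidHom.mk' f hmul, fun a => ?_, fun x hx z hz => ?_⟩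
  · show SpecialLinearGroup.map s (P x₀ ((a : G) • x₀) * SpecialLinearGroup.map (j (τ x₀)) (ρ a)) = _
    rw [map_mul, hP2 _ _ (hA a a.2), one_mul, hsa]
  · show (P x₀ ((z : G) • x₀) * SpecialLinearGroup.map (j (τ x₀)) (ρ z)).1.trace = _
    have h1 := hP1 (z : G) x₀ x hx
    rw [hz] at h1
    have h2 : P x₀ ((z : G) • x₀) = P x₀ x * (P ((z : G) • x₀) x)⁻¹ := by
      rw [← hP.inv, hP.mul]
    have h3 : P x₀ ((z : G) • x₀) * SpecialLinearGroup.map (j (τ x₀)) (ρ z) =
        P x₀ x * SpecialLinearGroup.map (j (τ x)) (ρ z) * (P x₀ x)⁻¹ := by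
      rw [h2, h1]
      group
    rw [h3]
    have h4 : (P x₀ x * SpecialLinearGroup.map (j (τ x)) (ρ z) * (P x₀ x)⁻¹).1.trace =
        (SpecialLinearGroup.map (j (τ x)) (ρ z)).1.trace := by
      have e1 : (P x₀ x * SpecialLinearGroup.map (j (τ x)) (ρ z) * (P x₀ x)⁻¹).1 =
        ((P x₀ x * SpecialLinearGroup.map (j (τ x)) (ρ z)).1 * ((P x₀ x)⁻¹).1) := rfl
      rw [e1, Matrix.trace_mul_comm]
      have e2 : ((P x₀ x)⁻¹).1 * (P x₀ x * SpecialLinearGroup.map (j (τ x)) (ρ z)).1 =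
        ((P x₀ x)⁻¹ * (P x₀ x * SpecialLinearGroup.map (j (τ x)) (ρ z))).1 := rfl
      rw [e2, inv_mul_cancel_left]
    rw [h4, trace_map]

end glue

end Pool.Agent.SuIII
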