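import Pool.Agent.Lib.MP_305fdd_al.Su.III.Ndf
import Pool.Agent.Lib.MP_305fdd_al.Su.Tr.ColHT
import Pool.Agent.Lib.MP_305fdd_al.Su.Tr.Col

/-!
# MP_305fdd_al, surface groups, block (III)(B2): collapse to one edge, amalgam or nondefect HNN
-/

set_option autoImplicit false

namespace Pool.Agent.SuIII

open Matrix Pool.Agent.SuUp Pool.Agent.FrT Pool.Agent.SuT

section col

variable {G : Type} [Group G] {V : Type} [MulAction G V] {X : SimpleGraph V}

/-- collapse of a splitting to one edge -/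
theorem spl_col (hfg : Group.FG G) (h : Spl G X) {u v : V} (huv : X.Adj u v) :
    ∃ (W : Type) (_ : MulAction G W) (Y : SimpleGraph W) (κ : V → W), Spl G Y ∧
      Y.Adj (κ u) (κ v) ∧ OE G Y (κ u) (κ v) ∧ (∀ (g : G) x, κ (g • x) = g • κ x) ∧
      (∀ w, ∃ x, κ x = w) ∧ (∀ x y, κ x = κ y ↔ Rch G X u v x y) ∧
      ES G (κ u) (κ v) = ES G u v := by
  obtain ⟨W, iW, Y, κ, hTA, hsurj, hmap, hrch, hAdj, hHf, hES⟩ := p_COL G V X u v h.toTA huv
  have hYadj : Y.Adj (κ u) (κ v) := (hAdj _ _).2 ⟨1, Or.inl ⟨one_smul _ _, one_smul _ _⟩⟩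
  have hoe : OE G Y (κ u) (κ v) := fun w w' hww => (hAdj w w').1 hww
  have hmc : MC (ES G (κ u) (κ v)) := by
    rw [hES]
    exact h.mc u v huv
  have hfg2 : (MulAction.stabilizer G (κ u)).FG ∧ (MulAction.stabilizer G (κ v)).FG := by
    have := hfg
    by_cases hs : ∃ t : G, t • κ u = κ v
    · obtain ⟨t, ht⟩ := hs
      have h2 := FrV.fg_hn hTA.act FrR.p_fgH hTA.tree (fun g => hTA.noinv g _ _ hYadj) hYadj t
        (hoe.rch.2 ht) hmc.fg
      rw [hoe.sst] at h2
      refine ⟨h2, ?_⟩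
      rw [← ht, stab_smul]
      exact fg_map' h2 _
    · push Not at hs
      have h2 := FrV.fg_am hTA.act FrR.p_fgA hTA.tree (fun g => hTA.noinv g _ _ hYadj) hYadj
        (fun g hg => hs g (hoe.rch.1 hg)) hmc.fg
      rwa [hoe.sst, hoe.sst] at h2
  refine ⟨W, iW, Y, κ, ?_, hYadj, hoe, hmap, hsurj, hrch, hES⟩
  refine { toTA := hTA, mc := ?_, fg := ?_, na := ?_ }
  · intro w w' hww
    obtain ⟨g, ⟨e1, e2⟩ | ⟨e1, e2⟩⟩ := (hAdj w w').1 hww
    · rw [← e1, ← e2, ES_smul]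
      exact hmc.conj g
    · rw [← e1, ← e2, ES_symm, ES_smul]
      exact hmc.conj g
  · intro w
    obtain ⟨g, e | e⟩ := hoe.vert hTA hYadj w
    · rw [← e, stab_smul]
      exact fg_map' hfg2.1 _
    · rw [← e, stab_smul]
      exact fg_map' hfg2.2 _
  · intro w
    obtain ⟨x', rfl⟩ := hsurj w
    obtain ⟨a, ha, b, hb, hne⟩ := h.na x'
    have key : ∀ c ∈ MulAction.stabilizer G x', c ∈ MulAction.stabilizer G (κ x') := by
      intro c hc
      rw [MulAction.mem_stabilizer_iff] at hc ⊢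
      rw [← hmap, hc]
    exact ⟨a, key a ha, b, key b hb, hne⟩

end col

/-- MOVE: an element which is transcendental over `F0` can be moved infinitesimally over `F0` -/
def S_MOVE : Prop :=
  ∀ (F : Type) [Field F] [Algebra (ZMod 2) F] (F0 : IntermediateField (ZMod 2) F) (t : F),
    Transcendental F0 t →
    ∃ (R F' : Type) (_ : CommRing R) (_ : IsDomain R) (_ : Field F') (_ : Algebra (ZMod 2) R)
      (i : F →+* F') (s : R →+* F') (i0 i1 : F →+* R), (∀ a, s (i0 a) = i a) ∧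
      (∀ a, s (i1 a) = i a) ∧ (∀ a ∈ F0, i0 a = i1 a) ∧ i0 t ≠ i1 t ∧
      (∀ r : R, ∃ r', r' ^ 2 = r) ∧ (∀ r, s r ≠ 0 → IsUnit r)

/-- INDEP: the traces of the edge groups are algebraically independent -/
def Ind2 {G F : Type} [Group G] [Field F] [Algebra (ZMod 2) F]
    (ρ : G →* SpecialLinearGroup (Fin 2) F) {V : Type} [MulAction G V] (X : SimpleGraph V) : Prop :=
  ∀ (ι : Type) (_ : Finite ι) (x y : ι → V) (z : ι → G), (∀ i, X.Adj (x i) (y i)) →
    (∀ i j, i ≠ j → s(x i, y i) ∉ Orb G (x j) (y j)) →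
    (∀ i, ES G (x i) (y i) = Subgroup.zpowers (z i)) →
    AlgebraicIndependent (ZMod 2) (fun i => (ρ (z i)).1.trace)

section main

variable {G : Type} [Group G] {V : Type} [MulAction G V] {X : SimpleGraph V}

/-- the edges, up to the action and orientation -/
def edS (G : Type) [Group G] {V : Type} [MulAction G V] (X : SimpleGraph V) :
    Setoid {e : V × V // X.Adj e.1 e.2} where
  r e f := s(f.1.1, f.1.2) ∈ Orb G e.1.1 e.1.2
  iseqv :=
    { refl := fun e => ⟨1, by rw [one_smul, one_smul]⟩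
      symm := by
        rintro e f ⟨g, hg⟩
        refine ⟨g⁻¹, ?_⟩
        have := congrArg (Sym2.map (fun x => g⁻¹ • x)) hg
        simpa using this.symm
      trans := by
        rintro e f k ⟨g, hg⟩ ⟨g', hg'⟩
        refine ⟨g' * g, ?_⟩
        rw [hg']
        have := congrArg (Sym2.map (fun x => g' • x)) hg
        simpa [mul_smul] using this }

theorem trace_conj' {A : Type} [CommRing A] (g z : SpecialLinearGroup (Fin 2) A) :
    (g * z * g⁻¹).1.trace = z.1.trace := by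
  have e1 : (g * z * g⁻¹).1 = (g * z).1 * (g⁻¹).1 := rfl
  rw [e1, Matrix.trace_mul_comm]
  have e2 : (g⁻¹).1 * (g * z).1 = (g⁻¹ * (g * z)).1 := rfl
  rw [e2, inv_mul_cancel_left]

/-- the field generated by the traces of the other edge groups -/
theorem exists_field {F : Type} [Field F] [Algebra (ZMod 2) F]
    (ρ : G →* SpecialLinearGroup (Fin 2) F) (h : Spl G X) (hI : Ind2 ρ X) {u v : V}
    (huv : X.Adj u v) :
    ∃ F0 : IntermediateField (ZMod 2) F,
      (∀ x y, X.Adj x y → s(x, y) ∉ Orb G u v → ∃ z, ES G x y = Subgroup.zpowers z ∧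
        (ρ z).1.trace ∈ F0 ∧ (ρ z).1.trace ≠ 0) ∧
      ∃ z, ES G u v = Subgroup.zpowers z ∧ Transcendental F0 (ρ z).1.trace := by
  classical
  let Q := Quotient (edS G X)
  let o : Q → {e : V × V // X.Adj e.1 e.2} := Quotient.out
  have hz : ∀ q : Q, ∃ z, ES G (o q).1.1 (o q).1.2 = Subgroup.zpowers z := by
    intro q
    obtain ⟨⟨z, _, hz⟩, _⟩ := h.mc _ _ (o q).2
    exact ⟨z, hz⟩
  choose z hz using hz
  have hne : ∀ q q' : Q, q ≠ q' → s((o q).1.1, (o q).1.2) ∉ Orb G (o q').1.1 (o q').1.2 := by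
    intro q q' hqq hcon
    apply hqq
    have h1 : (edS G X) (o q') (o q) := hcon
    have h2 := Quotient.sound h1
    rw [Quotient.out_eq, Quotient.out_eq] at h2
    exact h2.symm
  have hAI : AlgebraicIndependent (ZMod 2) (fun q : Q => (ρ (z q)).1.trace) := by
    refine algebraicIndependent_of_finite_type fun t ht => ?_
    have := ht.to_subtype
    exact hI t inferInstance (fun q => (o q).1.1) (fun q => (o q).1.2) (fun q => z q)
      (fun q => (o q).2) (fun q q' hqq => hne q q' (fun hh => hqq (Subtype.ext hh)))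
      (fun q => hz q)
  -- generators of the edge groups
  have hgen : ∀ x y (hxy : X.Adj x y), ∃ z', ES G x y = Subgroup.zpowers z' ∧
      (ρ z').1.trace = (ρ (z (Quotient.mk _ ⟨(x, y), hxy⟩))).1.trace := by
    intro x y hxy
    set q : Q := Quotient.mk (edS G X) ⟨(x, y), hxy⟩ with hq
    have h1 : (edS G X) (o q) ⟨(x, y), hxy⟩ := Quotient.mk_out _
    obtain ⟨g, hg⟩ := h1
    refine ⟨g * z q * g⁻¹, ?_, ?_⟩
    · have h2 : ES G x y = ES G (g • (o q).1.1) (g • (o q).1.2) := by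
        have hg' : s(x, y) = s(g • (o q).1.1, g • (o q).1.2) := hg
        rcases Sym2.eq_iff.1 hg' with ⟨e1, e2⟩ | ⟨e1, e2⟩
        · rw [e1, e2]
        · rw [e1, e2, ES_symm]
      rw [h2, ES_smul, hz q]
      ext a
      constructor
      · rintro ⟨b, hb, rfl⟩
        obtain ⟨k, rfl⟩ := Subgroup.mem_zpowers_iff.1 hb
        refine Subgroup.mem_zpowers_iff.2 ⟨k, ?_⟩
        show (g * z q * g⁻¹) ^ k = (MulAut.conj g) (z q ^ k)
        rw [map_zpow]
        rfl
      · intro ha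
        obtain ⟨k, rfl⟩ := Subgroup.mem_zpowers_iff.1 ha
        refine ⟨z q ^ k, Subgroup.mem_zpowers_iff.2 ⟨k, rfl⟩, ?_⟩
        show (MulAut.conj g) (z q ^ k) = _
        rw [map_zpow]
        rfl
    · rw [map_mul, map_mul, map_inv, trace_conj']
  set q0 : Q := Quotient.mk (edS G X) ⟨(u, v), huv⟩ with hq0
  refine ⟨IntermediateField.adjoin (ZMod 2) ((fun q : Q => (ρ (z q)).1.trace) '' {q0}ᶜ),
    ?_, ?_⟩
  · intro x y hxy ho
    obtain ⟨z', h1, h2⟩ := hgen x y hxy
    refine ⟨z', h1, ?_, ?_⟩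
    · rw [h2]
      refine IntermediateField.subset_adjoin _ _ ⟨_, ?_, rfl⟩
      intro hcon
      have hcon' : Quotient.mk (edS G X) ⟨(x, y), hxy⟩ = Quotient.mk (edS G X) ⟨(u, v), huv⟩ := hcon
      have h3 : (edS G X) ⟨(u, v), huv⟩ ⟨(x, y), hxy⟩ := Quotient.exact hcon'.symm
      exact ho h3
    · rw [h2]
      intro hcon
      have h3 := hAI.transcendental (Quotient.mk _ ⟨(x, y), hxy⟩)
      apply h3
      show IsAlgebraic (ZMod 2) (ρ (z _)).1.trace
      rw [hcon]
      exact isAlgebraic_zero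
  · obtain ⟨z', h1, h2⟩ := hgen u v huv
    refine ⟨z', h1, ?_⟩
    rw [h2]
    exact IntermediateField.transcendental_adjoin_iff.2
      (hAI.transcendental_adjoin (s := {q0}ᶜ) (i := q0) (fun h => h rfl))

/-- AMALGAM OR NONDEFECT HNN: a splitting with at least two orbits of vertices has a one-edge collapse
which is an amalgam or a nondefect HNN extension. -/
theorem amalgam_or_nondefect (hM : S_MOVE) {F : Type} [Field F] [Algebra (ZMod 2) F]
    (ρ : G →* SpecialLinearGroup (Fin 2) F) (hfg : Group.FG G) (h : Spl G X) (hI : Ind2 ρ X)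
    {x₁ x₂ : V} (hx : ∀ g : G, g • x₁ ≠ x₂) :
    ∃ (W : Type) (_ : MulAction G W) (Y : SimpleGraph W) (p q : W), Spl G Y ∧ Y.Adj p q ∧
      OE G Y p q ∧ ((∀ g : G, g • p ≠ q) ∨
        ∃ t z : G, t • p = q ∧ HT G Y p t ∧ ES G p (t • p) = Subgroup.zpowers z ∧
          NDf ρ (MulAction.stabilizer G p) z (t⁻¹ * z * t)) := by
  classical
  -- an edge between different orbits
  have hex : ∃ u v : V, X.Adj u v ∧ ∀ g : G, g • u ≠ v := by
    by_contra hcon
    push Not at hcon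
    have h1 : ∀ x y : V, ∃ g : G, g • x = y := by
      refine tp_ind h.toTA.tree.connected _ (fun x => ⟨1, one_smul _ _⟩) ?_
      rintro x y z hxy ⟨g, hg⟩
      obtain ⟨g', hg'⟩ := hcon x y hxy
      exact ⟨g * g', by rw [mul_smul, hg', hg]⟩
    obtain ⟨g, hg⟩ := h1 x₁ x₂
    exact hx g hg
  obtain ⟨u, v, huv, hno⟩ := hex
  obtain ⟨W, iW, Y, κ, hS, hYadj, hoe, hmap, hsurj, hrch, hES⟩ := spl_col hfg h huv
  refine ⟨W, iW, Y, κ u, κ v, hS, hYadj, hoe, ?_⟩
  by_cases hs : ∀ g : G, g • κ u ≠ κ v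
  · exact Or.inl hs
  right
  push Not at hs
  obtain ⟨t, ht⟩ := hs
  obtain ⟨F0, hF0, z, hz, htr⟩ := exists_field ρ h hI huv
  obtain ⟨R, F', iR1, iR2, iF, iA, i, s, i0, i1, hs0, hs1, h01, hne, hsq, hun⟩ :=
    hM F F0 (ρ z).1.trace htr
  let τ : V → Bool := fun x => decide (∃ g : G, g • v = x)
  have hτ : ∀ (g : G) x, τ (g • x) = τ x := by
    intro g x
    simp only [τ]
    congr 1
    apply propext
    constructor
    · rintro ⟨k, hk⟩
      exact ⟨g⁻¹ * k, by rw [mul_smul, hk, inv_smul_smul]⟩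
    · rintro ⟨k, hk⟩
      exact ⟨g * k, by rw [mul_smul, hk]⟩
  have hτv : τ v = true := decide_eq_true ⟨1, one_smul _ _⟩
  have hτu : τ u = false := by
    refine decide_eq_false ?_
    rintro ⟨g, hg⟩
    exact hno g⁻¹ (by rw [← hg, inv_smul_smul])
  let j : Bool → F →+* R := fun b => if b then i1 else i0
  have hzu : z ∈ MulAction.stabilizer G u := by
    have : z ∈ ES G u v := by rw [hz]; exact Subgroup.mem_zpowers z
    exact (mem_ES.1 this).1
  have hzv : z • v = v := by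
    have : z ∈ ES G u v := by rw [hz]; exact Subgroup.mem_zpowers z
    exact (mem_ES.1 this).2
  obtain ⟨r, hr1, hr2⟩ := exists_rep h.toTA ρ u v τ hτ i j s
    (by
      intro b a
      cases b
      · exact hs0 a
      · exact hs1 a) hsq hun
    (by
      intro x y hxy ho _ _
      obtain ⟨z', h1, h2, h3⟩ := hF0 x y hxy ho
      exact ⟨z', h1, h01 _ h2, h3⟩)
    (MulAction.stabilizer G (κ u)) u
    (by
      intro g hg
      refine (hrch _ _).1 ?_
      rw [hmap]
      exact (MulAction.mem_stabilizer_iff.1 hg).symm)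
  refine ⟨t, z, ht, ?_, ?_, R, F', iR1, iR2, iF, iA, i, s, r, hr1, ?_⟩
  · exact
      { toTA := hS.toTA
        adj := by rw [ht]; exact hYadj
        one := by rw [ht]; exact hoe
        mc := by rw [ht]; exact hS.mc _ _ hYadj }
  · rw [ht, hES, hz]
  have m1 : z ∈ MulAction.stabilizer G (κ u) := by
    rw [MulAction.mem_stabilizer_iff, ← hmap, MulAction.mem_stabilizer_iff.1 hzu]
  have e1 : κ (t⁻¹ • v) = κ u := by
    rw [hmap, ← ht, inv_smul_smul]
  have hfix : (t⁻¹ * z * t) • (t⁻¹ • v) = t⁻¹ • v := by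
    rw [mul_smul, mul_smul, smul_inv_smul, hzv]
  have m2 : t⁻¹ * z * t ∈ MulAction.stabilizer G (κ u) := by
    rw [MulAction.mem_stabilizer_iff, ← e1, ← hmap, hfix]
  refine ⟨m1, m2, ?_⟩
  rw [hr2 u (Rch.refl X u v u) ⟨z, m1⟩ (MulAction.mem_stabilizer_iff.1 hzu),
    hr2 (t⁻¹ • v) ((hrch _ _).1 e1.symm) ⟨t⁻¹ * z * t, m2⟩ hfix, hτ, hτu, hτv]
  have e2 : (ρ (t⁻¹ * z * t)).1.trace = (ρ z).1.trace := by
    have h5 : t⁻¹ * z * t = t⁻¹ * z * (t⁻¹)⁻¹ := by rw [inv_inv]
    rw [h5, map_mul, map_mul, map_inv ρ t⁻¹, trace_conj']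
  show i0 (ρ z).1.trace ≠ i1 (ρ (t⁻¹ * z * t)).1.trace
  rw [e2]
  exact hne

end main

end Pool.Agent.SuIII
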