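import Pool.Agent.Lib.MP_305fdd_al.Su.III.T3
import Pool.Agent.Lib.MP_305fdd_al.Su.Asm.Stm
import Pool.Agent.Lib.MP_305fdd_al.Su.CM.Use

/-!
# MP_305fdd_al, surface groups, block (III): the interface statement `S_T3`
-/

set_option autoImplicit false

namespace Pool.Agent.SuIII

open Matrix Pool.Agent.SuUp Pool.Agent.FrT Pool.Agent.SuT Pool.Agent.SuAA

theorem p_T3 : Pool.Agent.SuAsm.S_T3 := by
  intro g Λ Γ F _ _ _ _ π ρ P V _ X hX hex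
  obtain ⟨x₁, x₂, hx⟩ := hex
  obtain ⟨W, iW, Y, p, q, hS, hadj, hoe, h | ⟨t, z, ht, hHT, hz, hN⟩⟩ :=
    t3 P (SuCM.pk_div P) hX hx
  · exact ⟨W, iW, Y, hS, Or.inl ⟨p, q, hadj, hoe, h⟩⟩
  · refine ⟨W, iW, Y, hS, Or.inr ⟨p, t, hHT, z, ?_, ?_⟩⟩
    · rw [hz]
      exact Subgroup.mem_zpowers z
    · obtain ⟨R, F', i1, i2, i3, i4, i, s, r, hr, hz1, hz2, hne⟩ := hN
      exact ⟨R, F', i1, i2, i4, i3, i, s, r, hz1, hz2, hr, hne⟩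

end Pool.Agent.SuIII
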