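import Pool.Agent.Lib.MP_305fdd_al.Fr.T.BS

/-!
# MP_305fdd_al, surface groups, block (III): transport along the geodesics of a tree
-/

set_option autoImplicit false

namespace Pool.Agent.SuIII

open Pool.Agent.FrT

/-- transport: `P x y` with `P x y * P y z = P x z` -/
structure Tp {V M : Type} [Group M] (P : V → V → M) : Prop where
  mul : ∀ x y z, P x y * P y z = P x z

section

variable {V M : Type} [Group M] {X : SimpleGraph V}

theorem Tp.self {P : V → V → M} (h : Tp P) (x : V) : P x x = 1 :=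
  mul_eq_left.1 (h.mul x x x)

theorem Tp.inv {P : V → V → M} (h : Tp P) (x y : V) : P y x = (P x y)⁻¹ := by
  rw [eq_inv_iff_mul_eq_one, h.mul, h.self]

/-- existence -/
theorem exists_tp (hX : X.IsTree) (m : V → V → M)
    (hm : ∀ u v, X.Adj u v → m v u = (m u v)⁻¹) :
    ∃ P : V → V → M, Tp P ∧ ∀ x y, X.Adj x y → P x y = m x y := by
  obtain ⟨P, hP⟩ := potG hX m hm
  refine ⟨fun x y => (P x)⁻¹ * P y, ⟨fun x y z => ?_⟩, fun x y h => ?_⟩
  · rw [mul_assoc, mul_inv_cancel_left]
  · change (P x)⁻¹ * P y = m x y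
    rw [hP x y h, inv_mul_cancel_left]

/-- induction along a path -/
theorem tp_ind (hX : X.Connected) (C : V → V → Prop) (h0 : ∀ x, C x x)
    (h1 : ∀ x y z, X.Adj x y → C y z → C x z) (x y : V) : C x y := by
  obtain ⟨w⟩ := hX.preconnected x y
  induction w with
  | nil => exact h0 _
  | cons h _ ih => exact h1 _ _ _ h ih

/-- uniqueness -/
theorem Tp.unique (hX : X.Connected) {P Q : V → V → M} (hP : Tp P) (hQ : Tp Q)
    (h : ∀ x y, X.Adj x y → P x y = Q x y) (x y : V) : P x y = Q x y := by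
  refine tp_ind hX (fun x y => P x y = Q x y) (fun x => by rw [hP.self, hQ.self])
    (fun x y z hxy hyz => ?_) x y
  rw [← hP.mul x y z, ← hQ.mul x y z, h x y hxy, hyz]

/-- equivariance: `a z` is the value of the vertex `z` -/
theorem Tp.equiv {G : Type} [Group G] [MulAction G V] (hX : X.Connected) {P : V → V → M}
    (hP : Tp P) (g : G) (hact : ∀ x y, X.Adj x y → X.Adj (g • x) (g • y)) (a : V → M)
    (h : ∀ x y, X.Adj x y → P (g • x) (g • y) = a x * P x y * (a y)⁻¹) (x y : V) :
    P (g • x) (g • y) = a x * P x y * (a y)⁻¹ := by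
  have _ := hact
  refine Tp.unique hX (P := fun x y => P (g • x) (g • y))
    (Q := fun x y => a x * P x y * (a y)⁻¹) ⟨fun x y z => hP.mul _ _ _⟩ ⟨fun x y z => ?_⟩ h x y
  rw [← hP.mul x y z]
  group

end

section add

/-- additive transport -/
structure Ta {V M : Type} [AddCommGroup M] (P : V → V → M) : Prop where
  add : ∀ x y z, P x y + P y z = P x z

variable {V M : Type} [AddCommGroup M] {X : SimpleGraph V}

theorem Ta.self {P : V → V → M} (h : Ta P) (x : V) : P x x = 0 :=
  add_eq_left.1 (h.add x x x)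

theorem Ta.neg {P : V → V → M} (h : Ta P) (x y : V) : P y x = -P x y := by
  rw [eq_neg_iff_add_eq_zero, h.add, h.self]

theorem exists_ta (hX : X.IsTree) (m : V → V → M) (hm : ∀ u v, X.Adj u v → m v u = -m u v) :
    ∃ P : V → V → M, Ta P ∧ ∀ x y, X.Adj x y → P x y = m x y := by
  obtain ⟨P, hP⟩ := potG hX (fun x y => Multiplicative.ofAdd (m x y)) (fun u v h => by
    rw [hm u v h, ofAdd_neg])
  refine ⟨fun x y => (P y).toAdd - (P x).toAdd, ⟨fun x y z => ?_⟩, fun x y h => ?_⟩
  · abel
  · change (P y).toAdd - (P x).toAdd = m x y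
    rw [hP x y h, toAdd_mul, toAdd_ofAdd]
    abel

theorem Ta.unique (hX : X.Connected) {P Q : V → V → M} (hP : Ta P) (hQ : Ta Q)
    (h : ∀ x y, X.Adj x y → P x y = Q x y) (x y : V) : P x y = Q x y := by
  refine tp_ind hX (fun x y => P x y = Q x y) (fun x => by rw [hP.self, hQ.self])
    (fun x y z hxy hyz => ?_) x y
  rw [← hP.add x y z, ← hQ.add x y z, h x y hxy, hyz]

end add

end Pool.Agent.SuIII
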