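import Pool.Agent.Lib.MP_305fdd_al.Su.III.Hom
import Pool.Agent.Lib.MP_305fdd_al.Su.SM.Dim

/-!
# MP_305fdd_al, surface groups, block (III): the adjoint representation in characteristic two
-/

set_option autoImplicit false

namespace Pool.Agent.SuIII

open Matrix Pool.Agent.SuUp Pool.Agent.SuD Pool.Agent.Lib.MP_305fdd_al Pool.Agent.MP_305fdd_al
  Pool.Agent.SurfCnt Pool.Agent.SuSM

/-- the matrices of trace zero -/
def s2 (k : Type) [Field k] : Submodule k (Matrix (Fin 2) (Fin 2) k) :=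
  LinearMap.ker (Matrix.traceLinearMap (Fin 2) k k)

theorem mem_s2 {k : Type} [Field k] {X : Matrix (Fin 2) (Fin 2) k} : X ∈ s2 k ↔ X.trace = 0 :=
  Iff.rfl

section

variable {k : Type} [Field k] {G : Type} [Group G]

theorem inv_mul_val (r : G →* SpecialLinearGroup (Fin 2) k) (g : G) :
    (r g⁻¹).1 * (r g).1 = 1 := by
  have h := congrArg Subtype.val (inv_mul_cancel (r g))
  rw [← map_inv] at h
  exact h

theorem mul_inv_val (r : G →* SpecialLinearGroup (Fin 2) k) (g : G) :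
    (r g).1 * (r g⁻¹).1 = 1 := by
  have h := congrArg Subtype.val (mul_inv_cancel (r g))
  rw [← map_inv] at h
  exact h

theorem mul_val (r : G →* SpecialLinearGroup (Fin 2) k) (g h : G) :
    (r (g * h)).1 = (r g).1 * (r h).1 := by
  rw [map_mul]
  rfl

theorem one_val (r : G →* SpecialLinearGroup (Fin 2) k) : (r 1).1 = 1 := by
  rw [map_one]
  rfl

/-- the adjoint representation -/
def ad (r : G →* SpecialLinearGroup (Fin 2) k) : G →* Module.End k (s2 k) where
  toFun g :=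
    { toFun := fun X => ⟨(r g).1 * X.1 * (r g⁻¹).1, by
        rw [mem_s2, Matrix.trace_mul_comm, ← Matrix.mul_assoc, inv_mul_val, Matrix.one_mul]
        exact X.2⟩
      map_add' := fun X Y => Subtype.ext (by
        change (r g).1 * (X.1 + Y.1) * (r g⁻¹).1 = (r g).1 * X.1 * (r g⁻¹).1 +
          (r g).1 * Y.1 * (r g⁻¹).1
        rw [Matrix.mul_add, Matrix.add_mul])
      map_smul' := fun a X => Subtype.ext (by
        change (r g).1 * (a • X.1) * (r g⁻¹).1 = a • ((r g).1 * X.1 * (r g⁻¹).1)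
        rw [Matrix.mul_smul, Matrix.smul_mul]) }
  map_one' := by
    refine LinearMap.ext fun X => Subtype.ext ?_
    change (r 1).1 * X.1 * (r 1⁻¹).1 = X.1
    rw [inv_one, one_val, Matrix.one_mul, Matrix.mul_one]
  map_mul' g h := by
    refine LinearMap.ext fun X => Subtype.ext ?_
    change (r (g * h)).1 * X.1 * (r (g * h)⁻¹).1 =
      (r g).1 * ((r h).1 * X.1 * (r h⁻¹).1) * (r g⁻¹).1
    rw [_root_.mul_inv_rev, mul_val, mul_val]
    simp only [Matrix.mul_assoc]

theorem ad_val (r : G →* SpecialLinearGroup (Fin 2) k) (g : G) (X : s2 k) :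
    (ad r g X).1 = (r g).1 * X.1 * (r g⁻¹).1 := rfl

/-- no invariant functional for good representations -/
theorem inv_zero (r : G →* SpecialLinearGroup (Fin 2) k) (H : Subgroup G)
    (hg : Gd (fun s : H => r s)) (f : s2 k →ₗ[k] k)
    (hf : ∀ s ∈ H, ∀ p, f (ad r s p) = f p) : f = 0 := by
  refine LinearMap.ext fun X => ?_
  rw [LinearMap.zero_apply]
  have h1 := span_of_Gd (fun s : H => r s) hg X.1 X.2
  have h2 : ∀ Z ∈ Submodule.span k {Z | ∃ (x : H) (Y : Matrix (Fin 2) (Fin 2) k), Y.trace = 0 ∧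
      Z = Y - (r x).1 * Y * ((r x)⁻¹).1}, ∃ hZ : Z ∈ s2 k, f ⟨Z, hZ⟩ = 0 := by
    intro Z hZ
    induction hZ using Submodule.span_induction with
    | mem Z hZ =>
      obtain ⟨x, Y, hY, rfl⟩ := hZ
      have h3 : Y - (r x).1 * Y * ((r x)⁻¹).1 =
          ((⟨Y, hY⟩ : s2 k) - ad r x ⟨Y, hY⟩ : s2 k).1 := by
        change Y - (r x).1 * Y * ((r x)⁻¹).1 = Y - (r x).1 * Y * (r (x : G)⁻¹).1
        rw [map_inv]
      refine ⟨?_, ?_⟩
      · rw [h3]
        exact Subtype.property _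
      · have h4 : (⟨Y - (r x).1 * Y * ((r x)⁻¹).1, by rw [h3]; exact Subtype.property _⟩ : s2 k) =
            (⟨Y, hY⟩ : s2 k) - ad r x ⟨Y, hY⟩ := Subtype.ext h3
        rw [h4, map_sub, hf x x.2, sub_self]
    | zero => exact ⟨Submodule.zero_mem _, map_zero f⟩
    | add Z Z' _ _ h h' =>
      obtain ⟨hZ, h⟩ := h
      obtain ⟨hZ', h'⟩ := h'
      refine ⟨Submodule.add_mem _ hZ hZ', ?_⟩
      have h4 : (⟨Z + Z', Submodule.add_mem _ hZ hZ'⟩ : s2 k) = ⟨Z, hZ⟩ + ⟨Z', hZ'⟩ := rfl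
      rw [h4, map_add, h, h', add_zero]
    | smul a Z _ h =>
      obtain ⟨hZ, h⟩ := h
      refine ⟨Submodule.smul_mem _ a hZ, ?_⟩
      have h4 : (⟨a • Z, Submodule.smul_mem _ a hZ⟩ : s2 k) = a • ⟨Z, hZ⟩ := rfl
      rw [h4, map_smul, h, smul_zero]
  obtain ⟨_, h3⟩ := h2 X.1 h1
  exact h3

/-- the functional given by a matrix -/
def zt (M : Matrix (Fin 2) (Fin 2) k) : s2 k →ₗ[k] k where
  toFun X := (X.1 * M).trace
  map_add' X Y := by
    change ((X.1 + Y.1) * M).trace = (X.1 * M).trace + (Y.1 * M).trace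
    rw [Matrix.add_mul, Matrix.trace_add]
  map_smul' a X := by
    change ((a • X.1) * M).trace = a • (X.1 * M).trace
    rw [Matrix.smul_mul, Matrix.trace_smul]

theorem zt_apply (M : Matrix (Fin 2) (Fin 2) k) (X : s2 k) : zt M X = (X.1 * M).trace := rfl

theorem zt_ne (h2 : (2 : k) = 0) {M : Matrix (Fin 2) (Fin 2) k} (hM : M.trace ≠ 0) :
    zt M ≠ 0 := by
  intro h
  apply hM
  have h1 : (1 : Matrix (Fin 2) (Fin 2) k) ∈ s2 k := by
    rw [mem_s2, Matrix.trace_fin_two, Matrix.one_apply_eq, Matrix.one_apply_eq,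
      one_add_one_eq_two, h2]
  have h3 := LinearMap.congr_fun h ⟨1, h1⟩
  rw [zt_apply, LinearMap.zero_apply, Matrix.one_mul] at h3
  exact h3

theorem zt_inv (r : G →* SpecialLinearGroup (Fin 2) k) (g : G) (X : s2 k) :
    zt (r g).1 (ad r g X) = zt (r g).1 X := by
  rw [zt_apply, zt_apply, ad_val, Matrix.mul_assoc, inv_mul_val, Matrix.mul_one,
    Matrix.trace_mul_comm]

/-- the kernel of the functional consists of differences -/
theorem zt_ker (h2 : (2 : k) = 0) (r : G →* SpecialLinearGroup (Fin 2) k) (g : G)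
    (ht : (r g).1.trace ≠ 0) (X : s2 k) (hX : zt (r g).1 X = 0) :
    ∃ q, X = q - ad r g q := by
  have hch : ∀ a : k, a + a = 0 := fun a => by rw [← two_mul, h2, zero_mul]
  set M := (r g).1 with hM
  have hXM : (X.1 * M).trace = 0 := hX
  have hX0 : X.1.trace = 0 := X.2
  refine ⟨M.trace⁻¹ • ⟨X.1 * M, hXM⟩, Subtype.ext ?_⟩
  change X.1 = M.trace⁻¹ • (X.1 * M) - M * (M.trace⁻¹ • (X.1 * M)) * (r g⁻¹).1
  have h3 : M * (r g⁻¹).1 = 1 := mul_inv_val r g
  rw [Matrix.mul_smul, Matrix.smul_mul, ← smul_sub]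
  have h4 : M * (X.1 * M) * (r g⁻¹).1 = M * X.1 := by
    rw [Matrix.mul_assoc, Matrix.mul_assoc, h3, Matrix.mul_one]
  rw [h4]
  have h5 : X.1 * M - M * X.1 = M.trace • X.1 := by
    rw [Matrix.trace_fin_two] at hX0 hXM
    rw [Matrix.mul_apply, Matrix.mul_apply] at hXM
    simp only [Fin.sum_univ_two] at hXM
    have e1 : X.1 1 1 = X.1 0 0 := by linear_combination hX0 - hch (X.1 0 0)
    rw [Matrix.trace_fin_two]
    refine Matrix.ext (Fin.forall_fin_two.2 ⟨Fin.forall_fin_two.2 ⟨?_, ?_⟩,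
      Fin.forall_fin_two.2 ⟨?_, ?_⟩⟩)
    · simp only [Matrix.sub_apply, Matrix.mul_apply, Fin.sum_univ_two, Matrix.smul_apply,
        smul_eq_mul]
      linear_combination hXM - M 1 1 * e1 -
        (M 0 1 * X.1 1 0 + (M 0 0 + M 1 1) * X.1 0 0) * h2
    · simp only [Matrix.sub_apply, Matrix.mul_apply, Fin.sum_univ_two, Matrix.smul_apply,
        smul_eq_mul]
      linear_combination -(M 0 1) * e1 - M 0 0 * X.1 0 1 * h2
    · simp only [Matrix.sub_apply, Matrix.mul_apply, Fin.sum_univ_two, Matrix.smul_apply,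
        smul_eq_mul]
      linear_combination M 1 0 * e1 - M 1 1 * X.1 1 0 * h2
    · simp only [Matrix.sub_apply, Matrix.mul_apply, Fin.sum_univ_two, Matrix.smul_apply,
        smul_eq_mul]
      linear_combination hXM + M 0 0 * e1 -
        (X.1 0 1 * M 1 0 + X.1 1 1 * M 1 1 + M 0 0 * X.1 1 1) * h2
  rw [h5, smul_smul, inv_mul_cancel₀ ht, one_smul]

end

end Pool.Agent.SuIII
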